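import Pool.Agent.helper90.DH.Defs

/-!
# Project dh: (MP_5823cb_al): interface statements

Rules: module `XX` is `theorem XX (hYY : YY_stmt) … : XX_stmt` in the file `Pool/Agent/<seat>/DH/XX.lean` with `import` of the spec file containing `XX_stmt` (and of spec files of the used statements),
`set_option autoImplicit false`, `open Filter Topology MeasureTheory`, `open scoped commutatorElement`, `namespace Pool.Agent.helper90.DH`, `open Pool.Agent.helper64.D2`. Auxiliary lemmas prefixed `XX_`.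
No `sorry`, no double quotes, no `#` commands, no `native_decide`, no `axiom`. The statements of this file are the interface between the parts; each part has its own spec file which decomposes them.
Parameters: `s0 = ρ^2`, `q = ρ^4`, `m = 2^w0`.
-/

set_option autoImplicit false

open Filter Topology MeasureTheory
open scoped commutatorElement

namespace Pool.Agent.helper90.DH

open Pool.Agent.helper64.D2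

/-! ## Part G (sparsity, gap, sliver): helper43, helper41 -/

/-- **BAT**. One batch of digits. `P i = (Q (i+1))⁻¹`, `E i = G i * R (i+1)`; the new maps are `P_i (E_i + W_i)`. -/
def BAT_stmt : Prop := ∀ β : ℝ → ℝ, BUMP β → ∃ (K : ℝ) (m0 wK : ℕ), 1 ≤ K ∧ ∀ w0 : ℕ, wK ≤ w0 → ∃ (th : ℝ) (ρ0 : ℕ), 0 < th ∧
  ∀ ρ : ℕ, ρ0 ≤ ρ → ∀ (t : ℕ) (P E : ℕ → DD), (∀ i, Sz (P i) (1 / 1000) ∧ Sz (E i) (1 / 1000)) →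
  (∀ r k : ℕ, r ≤ bu w0 (ρ ^ 2) t → 2 * k * ρ ^ 3 ≤ r → SPR (ρ ^ 4) (fun i => P i * E i) r k th 4) →
  ∃ ω : ℕ → ℕ → ℕ, (∀ i l, ω i l < 2 ^ sj (ρ ^ 2) (t + 1)) ∧ ∀ c : ℕ → DD,
    (∀ i x, ev (c i) x = ev (P i) (ev (E i) x +
      Wd β (bu w0 (ρ ^ 2) t) (2 ^ sj (ρ ^ 2) (t + 1)) (1 / 2 ^ amp w0 (ρ ^ 2) t (i % 2 ^ w0)) (ω i) x)) →
    (∀ φ < 2 ^ w0, ∀ s : ℕ, amp w0 (ρ ^ 2) t φ + w0 ≤ s → s ≤ sj (ρ ^ 2) (t + 1) + 3 * w0 * 2 ^ w0 →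
      FG (ρ ^ 4) (2 ^ w0) φ c s (K / 2 ^ w0)) ∧
    (∀ k : ℕ, k * ρ ^ 3 ≤ sj (ρ ^ 2) (t + 1) → SPR (ρ ^ 4) c (sj (ρ ^ 2) (t + 1)) k th 8) ∧
    (1 ≤ t → SLV (ρ ^ 4) c (sj (ρ ^ 2) t) (sj (ρ ^ 2) t + sj (ρ ^ 2) t / 8) m0)

/-- **PERT** (medium). Perturbation of the gap of a family.
Proof. For `f` with `PA (s+1) f`, `Su f`: `∫ (f (c' x) - f (c x))^2 ≤ K η ∫ f^2` for near-identity maps with `|c' - c| ≤ η/2^s`: `f (c' x) - f (c x)` is at most `K (η) sup_(cell) |f|` if `c x`, `c' x` are in the same cell of level `s+1` (slope of `f` on a cell is at most `K 2^s sup`), otherwise `c x` is within `η/2^s` of a grid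
point and the difference is at most `2 sup` over the two neighbouring cells; `sup_(cell) f^2 ≤ 4·2^(s+1) ∫_cell f^2` for an affine `f`; the set of `x` with `c x` within `η/2^s` of a given grid point has measure at most `3 η/2^s`. Then the triangle inequality in `L^2` for the average. -/
def PERT_stmt : Prop := ∃ K : ℝ, 1 ≤ K ∧ ∀ (q m φ : ℕ) (c c' : ℕ → DD) (s : ℕ) (lam η : ℝ),
  (∀ i < q, Sz (c i) (1 / 100) ∧ Sz (c' i) (1 / 100)) → 0 ≤ lam → 0 ≤ η → η ≤ 1 →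
  (∀ i < q, i % m = φ → ∀ x, |ev (c' i) x - ev (c i) x| ≤ η / 2 ^ s) → FG q m φ c s lam → FG q m φ c' s (lam + K * √η)

/-- **GALL** (medium). From the families to the whole system; one family may be uncovered.
Proof. `Mop f = Σ_φ (#fam φ/q) Tf_φ f`, `#fam φ ≤ q/m + 1 ≤ 2q/m` (`m^2 ≤ q`), `‖Tf_φ0 f‖ ≤ 2 ‖f‖` (change of variables), triangle inequality in `L^2` (or Cauchy-Schwarz: `(Σ a_φ u_φ)^2 ≤ Σ a_φ u_φ^2` if `Σ a_φ = 1`, with the exceptional family separated). -/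
def GALL_stmt : Prop := ∃ K : ℝ, 1 ≤ K ∧ ∀ (q w0 : ℕ) (c : ℕ → DD) (s : ℕ) (lam : ℝ), 4 ^ w0 ≤ q → (∀ i < q, Sz (c i) (1 / 100)) → 0 ≤ lam →
  (∃ φ0 : ℕ, ∀ φ < 2 ^ w0, φ ≠ φ0 → FG q (2 ^ w0) φ c s lam) → GAP q c s (K * (lam + 1 / 2 ^ w0))

/-! ## Part L (`L^2` theory): helper69 -/

/-- Bounded by `B`, Lipschitz with constant `B 2^s` on every cell of level `s`. -/
def PL (s : ℕ) (B : ℝ) (g : ℝ → ℝ) : Prop := (∀ x, |g x| ≤ B) ∧ ∀ k : ℤ, ∀ x ∈ cell s k, ∀ y ∈ cell s k, |g x - g y| ≤ B * 2 ^ s * |x - y|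

/-- **SWP** (short/medium). Replacing the maps. Proof: labels which are not `near` have `c' y`, `c y` in the same cell of level `s`. -/
def SWP_stmt : Prop := ∀ (q m0 s σ : ℕ) (c c' : ℕ → DD) (g : ℝ → ℝ) (B : ℝ), 1 ≤ q → SLV q c s σ m0 →
  (∀ i < q, ∀ x, |ev (c' i) x - ev (c i) x| ≤ 1 / 2 ^ σ) → PL s B g → ∀ y ∈ Set.Icc (1 / 6 : ℝ) (5 / 6),
  (∑ i ∈ Finset.range q, |g (ev (c' i) y) - g (ev (c i) y)|) / q ≤ B * (2 * m0 / q + 2 ^ s / 2 ^ σ)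

/-- **FGP**. The full gap (almost orthogonality of the levels). -/
def FGP_stmt : Prop := ∃ K : ℝ, 1 ≤ K ∧ ∀ (lam : ℝ) (q : ℕ) (c : ℕ → DD) (s0 N : ℕ), 0 < lam → lam ≤ 1 / 2 → 1 ≤ q → 10 ≤ s0 → NI q c (1 / 100) (1 / 100) →
  (∀ s, s0 ≤ s → s < N → GAP q c s lam) → ∀ (f : ℝ → ℝ) (N' : ℕ), N' ≤ N → PA N' f → (∀ x, x ∉ Set.Icc (9 / 40 : ℝ) (31 / 40) → f x = 0) →
  (∀ x, Es s0 f x = 0) → nsq (Mop q c f) ≤ K * lam ^ 2 * (1 + Real.log (1 / lam)) * nsq f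

/-- **MIX**. Mixing for a set `B` of cells of level `N'` of density at most `den` in the cells of level `s0`. -/
def MIX_stmt : Prop := ∃ K : ℝ, 1 ≤ K ∧ ∀ (lam den : ℝ) (q : ℕ) (c : ℕ → DD) (s0 N : ℕ), 0 < lam → lam ≤ 1 / 2 → 0 ≤ den → 10 ≤ s0 → 1 ≤ q → NI q c (1 / 100) (1 / 100) →
  (∀ s, s0 ≤ s → s < N → GAP q c s lam) → ∀ (B : Finset ℤ) (N' : ℕ), s0 ≤ N' → N' ≤ N → (∀ k ∈ B, cell N' k ⊆ Set.Icc (1 / 4 : ℝ) (3 / 4)) →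
  (∀ k : ℤ, volume.real (UC N' B ∩ cell s0 k) ≤ den / 2 ^ s0) →
  nsq (Mop q c ((UC N' B).indicator 1)) ≤ (K * lam ^ 2 * (1 + Real.log (1 / lam)) + K * den) * (B.card / 2 ^ N')

/-- The points which are bad at the level `s`. -/
def BdS (q : ℕ) (c : ℕ → DD) (s0 S1 : ℕ) (th : ℝ) (y : ℝ → ℝ) (s : ℕ) : Set ℝ :=
  {x | th < |Mop q c (fun z => Es s y z - Es s0 y z) x| ∨ th < |Mop q c (fun z => Es (s + 1) y z - Es s0 y z) x| ∨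
    (S1 ≤ s ∧ th < |Mop q c (fun z => fr s z * Ds s y z) x|)}

/-- The exponent `L(w0)` in the losses `w0^K`. -/
def LL (w0 : ℕ) : ℕ := Nat.log 2 w0 + 1

/-- **NMX**. The maximal function: the neighbourhoods of all bad cells have small measure in every window of length `2^-(s0-w0-4)`; there are no bad points below the level `s0 + w0 - a L`. -/
def NMX_stmt : Prop := ∀ K0 th r : ℝ, 1 ≤ K0 → 0 < th → 0 ≤ r → ∃ a : ℕ, ∀ w0 : ℕ, a ≤ w0 → a * LL w0 ≤ w0 → ∀ (s0 N q : ℕ) (c : ℕ → DD) (y : ℝ → ℝ),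
  10 * w0 ≤ s0 → s0 < N → 1 ≤ q → NI q c (1 / 100) (2 ^ (w0 + 3) / 2 ^ s0) → (∀ s, s0 ≤ s → s < N + w0 + a → GAP q c s (K0 / 2 ^ w0)) →
  PA N y → (∀ x, x ∉ Set.Icc (1 / 4 : ℝ) (3 / 4) → y x = 0) → (∀ x, |y x| ≤ 2) →
  (∀ s, s0 ≤ s → s < N → s < s0 + w0 - a * LL w0 → BdS q c s0 (s0 + w0 - a * LL w0) th y s = ∅) ∧
  ∀ κ : ℤ, volume.real ((⋃ s ∈ Set.Ico s0 N, Nb r s {k | (cell s k ∩ BdS q c s0 (s0 + w0 - a * LL w0) th y s).Nonempty}) ∩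
    cell (s0 - w0 - 4) κ) ≤ 2 ^ (3 * a * LL w0) / 2 ^ (2 * w0) / 2 ^ (s0 - w0 - 4)

/-! ## Part M (maps): helper57 -/

/-- Flows: `|Y_k''| ≤ ε/q`, `|Y_k|, |Y_k'| ≤ d`, `Y_k''` is Lipschitz with constant `L`. -/
def FLW (q : ℕ) (Y : ℕ → ℝ → ℝ) (ε d L : ℝ) : Prop := ∀ k < q, ContDiff ℝ 2 (Y k) ∧ (∀ x, x ∉ Set.Icc (1 / 5 : ℝ) (4 / 5) → Y k x = 0) ∧
  ∀ x, |d2 (Y k) x| ≤ ε / q ∧ |deriv (Y k) x| ≤ d ∧ |Y k x| ≤ d ∧ ∀ x', |d2 (Y k) x - d2 (Y k) x'| ≤ L * |x - x'|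

/-- **BDD**. Existence and sizes. -/
def BDD_stmt : Prop := ∃ K : ℝ, 1 ≤ K ∧ ∀ (q : ℕ) (Y : ℕ → ℝ → ℝ) (G : ℕ → DD) (ε d L γ : ℝ), 1 ≤ q → FLW q Y ε d L → 0 ≤ ε → 0 ≤ γ → K * (ε + q * γ) ≤ 1 →
  (∀ i < q, Sz (G i) γ) → ∃ Q R : ℕ → DD, IsQ q Y Q ∧ IsR q G Q R ∧ (∀ i ≤ q, Sz (Q i) ε ∧ Sz (R i) (K * (ε + q * γ))) ∧
    ∀ i < q, Sz ((Q (i + 1))⁻¹) (K * ε) ∧ Sz (G i * R (i + 1)) (K * (ε + q * γ)) ∧ Sz (Cm G Q R i) (K * (ε + q * γ))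

/-- **RES**. The residual. Proof: identity (2.1) of the page, `N(f) = f''/f'`. -/
def RES_stmt : Prop := ∃ K : ℝ, 1 ≤ K ∧ ∀ (q : ℕ) (Y : ℕ → ℝ → ℝ) (G Q R : ℕ → DD) (ε d L γ : ℝ), 1 ≤ q → FLW q Y ε d L → 0 ≤ ε → 0 ≤ γ →
  K * (ε + q * γ) ≤ 1 → (∀ i < q, Sz (G i) γ) → IsQ q Y Q → IsR q G Q R →
  ∀ x, |d2 (ev (R 0)) x - ∑ i ∈ Finset.range q, d2 (Y i) (ev (Cm G Q R i) x)| ≤ K * ((ε + q * γ) ^ 2 + q * γ)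

/-- **CID**. The chain of commutators from `Q 0` to `R 0`.
Proof. `V i = P_i Q_i`, `P_i = ∏_(k<i) (G k)⁻¹ F_k G k = R_0 R_i⁻¹`; `V i = ⁅P_i F_i P_i⁻¹, P_i g_i P_i⁻¹⁆ * V (i+1)`. -/
def CID_stmt : Prop := ∃ K : ℝ, 1 ≤ K ∧ ∀ (q : ℕ) (Y : ℕ → ℝ → ℝ) (G Q R : ℕ → DD) (ε d L γ : ℝ), 1 ≤ q → FLW q Y ε d L → 0 ≤ ε → 0 ≤ γ →
  K * (ε + q * γ) ≤ 1 → (∀ i < q, Sz (G i) γ) → IsQ q Y Q → IsR q G Q R →
  ∃ V u v : ℕ → DD, V 0 = Q 0 ∧ V q = R 0 ∧ (∀ i < q, V (i + 1) = ⁅u i, v i⁆ * V i) ∧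
    ∀ i ≤ q, Sz (V i) (K * (ε + q * γ)) ∧ Sz (u i) (K * (ε + q * γ)) ∧ Sz (v i) (K * (ε + q * γ))

/-- **DST**. The digit step with exact compensation. -/
def DST_stmt : Prop := ∃ K : ℝ, 1 ≤ K ∧ ∀ (q : ℕ) (Y W : ℕ → ℝ → ℝ) (G Q R : ℕ → DD) (ε d L γ Lam τ0 τ1 τ2 : ℝ), 1 ≤ q → FLW q Y ε d L → 0 ≤ ε → 0 ≤ γ → 0 ≤ d →
  1 ≤ L → 1 ≤ Lam → 0 ≤ τ0 → 0 ≤ τ1 → 0 ≤ τ2 → K * (ε + q * γ + q * d) ≤ 1 → K * q ^ 4 * (τ2 + τ1 + τ0 * (Lam + L)) ≤ 1 →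
  (∀ i < q, Sz (G i) γ ∧ Lp (G i) Lam) → IsQ q Y Q → IsR q G Q R →
  (∀ i < q, ContDiff ℝ 3 (W i) ∧ (∀ x, x ∉ Set.Icc (1 / 8 : ℝ) (7 / 8) → W i x = 0) ∧ ∀ x, |W i x| ≤ τ0 ∧ |deriv (W i) x| ≤ τ1 ∧ |d2 (W i) x| ≤ τ2 ∧
    |deriv (d2 (W i)) x| ≤ 1) →
  ∃ G' R' : ℕ → DD, IsR q G' Q R' ∧ (∀ i < q, ∀ x, ev (G' i * R' (i + 1)) x = ev (G i * R (i + 1)) x + W i x) ∧
    ∀ i < q, Sz (G' i) (γ + K * q ^ 3 * (τ2 + τ1 + τ0 * (Lam + L))) ∧ Lp (G' i) (K * q ^ 2 * (Lam + L))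

/-- **FST**. The flow step: the conjugators are fixed. -/
def FST_stmt : Prop := ∃ K : ℝ, 1 ≤ K ∧ ∀ (q : ℕ) (Y Y' : ℕ → ℝ → ℝ) (G Q Q' R R' : ℕ → DD) (ε d L γ e : ℝ), 1 ≤ q → FLW q Y ε d L → FLW q Y' ε d L → 0 ≤ ε → 0 ≤ γ →
  0 ≤ d → K * (ε + q * γ + q * d) ≤ 1 → (∀ i < q, Sz (G i) γ) → IsQ q Y Q → IsQ q Y' Q' → IsR q G Q R → IsR q G Q' R' → (∀ k < q, ∀ x, |Y' k x - Y k x| ≤ e) →
  ∀ i < q, ∀ x, |ev (G i * R' (i + 1)) x - ev (G i * R (i + 1)) x| ≤ K * q * e ∧ |ev (Cm G Q' R' i) x - ev (Cm G Q R i) x| ≤ K * q * e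

end Pool.Agent.helper90.DH
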