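import Pool.Agent.helper15.DH.Spec

set_option autoImplicit false

open Complex MeasureTheory

namespace Pool.Agent.DH

open Pool.Agent.helper84.DM Pool.Agent.helper78.ED

theorem CPW : CPW_stmt := by
  intro δ hδ hδ4
  refine ⟨max 2 ((4 : ℝ) ^ (2 / δ)), ?_⟩
  intro T hT N hN1 hN2
  have hT2 : 2 ≤ T := le_trans (le_max_left _ _) hT
  have hT4 : (4 : ℝ) ^ (2 / δ) ≤ T := le_trans (le_max_right _ _) hT
  have hT0 : 0 < T := by linarith
  have hTd : 4 ≤ T ^ (δ / 2) := by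
    have h1 : ((4 : ℝ) ^ (2 / δ)) ^ (δ / 2) ≤ T ^ (δ / 2) :=
      Real.rpow_le_rpow (by positivity) hT4 (by positivity)
    rw [← Real.rpow_mul (by norm_num)] at h1
    have h2 : 2 / δ * (δ / 2) = 1 := by field_simp
    rw [h2, Real.rpow_one] at h1
    exact h1
  have hNd : T ^ (δ / 2) ≤ (N : ℝ) := by
    have h1 : T ^ δ = T ^ (δ / 2) * T ^ (δ / 2) := by
      rw [← Real.rpow_add hT0]
      congr 1
      ring
    rw [h1] at hN1
    nlinarith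
  have hN4 : (4 : ℝ) ≤ (N : ℝ) := hTd.trans hNd
  have hN2' : (N : ℝ) ^ 2 ≤ T ^ (1 + 2 * δ) := by
    have h1 : (N : ℝ) ^ 2 ≤ (T ^ (1 / 2 + δ)) ^ 2 := pow_le_pow_left₀ (by linarith) hN2 2
    have h2 : (T ^ (1 / 2 + δ)) ^ 2 = T ^ (1 + 2 * δ) := by
      rw [← Real.rpow_natCast, ← Real.rpow_mul hT0.le]
      congr 1
      push_cast
      ring
    rwa [h2] at h1
  have hex : ∃ m : ℕ, T ^ (1 + 2 * δ) < (N : ℝ) ^ (m + 1) := by
    obtain ⟨n, hn⟩ := pow_unbounded_of_one_lt (T ^ (1 + 2 * δ)) (show (1 : ℝ) < (N : ℝ) by linarith)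
    exact ⟨n, hn.trans_le (pow_le_pow_right₀ (by linarith) (by omega))⟩
  classical
  set k := Nat.find hex with hk
  have hk1 : T ^ (1 + 2 * δ) < (N : ℝ) ^ (k + 1) := Nat.find_spec hex
  have hmin : ∀ m < k, (N : ℝ) ^ (m + 1) ≤ T ^ (1 + 2 * δ) := fun m hm =>
    not_lt.1 (Nat.find_min hex hm)
  have hk2 : 2 ≤ k := by
    by_contra hcon
    have h1 : k + 1 ≤ 2 := by omega
    have h2 : (N : ℝ) ^ (k + 1) ≤ (N : ℝ) ^ 2 := pow_le_pow_right₀ (by linarith) h1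
    linarith
  have hk3 : (N : ℝ) ^ k ≤ T ^ (1 + 2 * δ) := by
    have := hmin (k - 1) (by omega)
    rwa [Nat.sub_add_cancel (by omega)] at this
  refine ⟨k, hk2, ?_, hk3, hk1.le⟩
  have h1 : (T ^ (δ / 2)) ^ k ≤ (N : ℝ) ^ k := pow_le_pow_left₀ (by positivity) hNd k
  have h2 : (T ^ (δ / 2)) ^ k = T ^ (δ / 2 * (k : ℝ)) := by
    rw [← Real.rpow_natCast, ← Real.rpow_mul hT0.le]
  rw [h2] at h1
  have h3 : δ / 2 * (k : ℝ) ≤ 1 + 2 * δ :=
    (Real.rpow_le_rpow_left_iff (by linarith)).1 (h1.trans hk3)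
  rw [le_div_iff₀ hδ]
  linarith

end Pool.Agent.DH
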