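import Pool.Agent.helper64.D2.SpecF

/-!
# Project dh: (MP_5823cb_al, `Diff^2_+(S^1)` is simple): definitions

See `/team-store/MP_5823cb_helper90.md` (strategy) and the version v2 of the parameters: a stage of the chain has `ε = 2^-n`; `ρ = 2^⌊n/200⌋`, `s0 = ρ^2`, `q = ρ^4` labels `i < q`,
`m = 2^w0` families (`i` belongs to the family `i % m`), `w0` an absolute constant. Levels `s`: cells `[k/2^s,(k+1)/2^s)`. Blocks `sj s0 j ≤ s < sj s0 (j+1)`.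
Batches of digits `t = 0, 1, 2, …`: amplitude `2^-(amp w0 s0 t φ)`, balls of radius about `2^-(bu w0 s0 t)`.
-/

set_option autoImplicit false

open Filter Topology MeasureTheory
open scoped commutatorElement

namespace Pool.Agent.helper90.DH

open Pool.Agent.helper64.D2

/-! ## Cells and piecewise affine functions -/

/-- The dyadic cell number `k` of level `s`. -/
def cell (s : ℕ) (k : ℤ) : Set ℝ := Set.Ico ((k : ℝ) / 2 ^ s) (((k : ℝ) + 1) / 2 ^ s)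

/-- The number of the cell of level `s` which contains `x`. -/
noncomputable def ci (s : ℕ) (x : ℝ) : ℤ := ⌊(2 : ℝ) ^ s * x⌋

/-- The relative position of `x` in its cell of level `s`. -/
noncomputable def fr (s : ℕ) (x : ℝ) : ℝ := Int.fract ((2 : ℝ) ^ s * x)

/-- The centre of the cell of level `s` which contains `x`. -/
noncomputable def mid (s : ℕ) (x : ℝ) : ℝ := ((ci s x : ℝ) + 1 / 2) / 2 ^ s

/-- `f` is affine on every cell of level `s`. -/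
def PA (s : ℕ) (f : ℝ → ℝ) : Prop := ∀ k : ℤ, ∃ a b : ℝ, ∀ x ∈ cell s k, f x = a + b * x

/-- `f` vanishes outside `[1/5,4/5]`. -/
def Su (f : ℝ → ℝ) : Prop := ∀ x : ℝ, x ∉ Set.Icc (1 / 5 : ℝ) (4 / 5) → f x = 0

/-- The `L^2` projection of `f` onto the functions which are affine on every cell of level `s`. -/
noncomputable def Es (s : ℕ) (f : ℝ → ℝ) (x : ℝ) : ℝ :=
  2 ^ s * (∫ t in cell s (ci s x), f t) + 12 * 2 ^ (3 * s) * (x - mid s x) * ∫ t in cell s (ci s x), (t - mid s x) * f t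

/-- The square of the `L^2` norm. -/
noncomputable def nsq (f : ℝ → ℝ) : ℝ := ∫ x, f x ^ 2

/-- The increment of level `s`. -/
noncomputable def Ds (s : ℕ) (f : ℝ → ℝ) (x : ℝ) : ℝ := Es (s + 1) f x - Es s f x

/-- The union of the cells of level `s` with number in `B`. -/
def UC (s : ℕ) (B : Finset ℤ) : Set ℝ := {x | ci s x ∈ B}

/-- Neighbourhood of radius `r/2^s` of the (closed) cells of level `s` with number in `B`. -/
def Nb (r : ℝ) (s : ℕ) (B : Set ℤ) : Set ℝ := {x | ∃ k ∈ B, ((k : ℝ) - r) / 2 ^ s ≤ x ∧ x ≤ ((k : ℝ) + 1 + r) / 2 ^ s}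

/-! ## Systems of maps -/

/-- The average of `f` over the `q` maps. -/
noncomputable def Mop (q : ℕ) (c : ℕ → DD) (f : ℝ → ℝ) (x : ℝ) : ℝ := (∑ i ∈ Finset.range q, f (ev (c i) x)) / q

/-- The labels of the family `φ`. -/
def fam (q m φ : ℕ) : Finset ℕ := (Finset.range q).filter (fun i => i % m = φ)

/-- The average of `f` over the maps of the family `φ`. -/
noncomputable def Tf (q m φ : ℕ) (c : ℕ → DD) (f : ℝ → ℝ) (x : ℝ) : ℝ := (∑ i ∈ fam q m φ, f (ev (c i) x)) / (fam q m φ).card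

/-- The maps are near the identity: `|c_i''| ≤ δ`, `|c_i - id| ≤ d`. -/
def NI (q : ℕ) (c : ℕ → DD) (δ d : ℝ) : Prop := ∀ i < q, Sz (c i) δ ∧ ∀ x, |ev (c i) x - x| ≤ d

/-- Gap at the level `s`. -/
def GAP (q : ℕ) (c : ℕ → DD) (s : ℕ) (lam : ℝ) : Prop :=
  ∀ f : ℝ → ℝ, PA (s + 1) f → Su f → (∀ x, Es s f x = 0) → nsq (Mop q c f) ≤ lam ^ 2 * nsq f

/-- Gap of a family at the level `s`. -/
def FG (q m φ : ℕ) (c : ℕ → DD) (s : ℕ) (lam : ℝ) : Prop :=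
  ∀ f : ℝ → ℝ, PA (s + 1) f → Su f → (∀ x, Es s f x = 0) → nsq (Tf q m φ c f) ≤ lam ^ 2 * nsq f

/-- Sparsity: `k` points (repetitions allowed), partial injections for all labels; there are at most `th q k` edges `p a → p b` at the precision `tol/2^r`. -/
def SPR (q : ℕ) (c : ℕ → DD) (r k : ℕ) (th tol : ℝ) : Prop :=
  ∀ (p : ℕ → ℝ) (E : Finset (ℕ × ℕ × ℕ)), (∀ a < k, p a ∈ Set.Icc (1 / 6 : ℝ) (5 / 6)) →
    (∀ e ∈ E, e.1 < q ∧ e.2.1 < k ∧ e.2.2 < k ∧ |ev (c e.1) (p e.2.1) - p e.2.2| ≤ tol / 2 ^ r) →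
    (∀ e ∈ E, ∀ e' ∈ E, e.1 = e'.1 → (e.2.1 = e'.2.1 ∨ e.2.2 = e'.2.2) → e = e') → (E.card : ℝ) ≤ th * q * k

open Classical in
/-- The labels `i` for which `c_i y` is within `2^-σ` of the grid of level `s`. -/
noncomputable def near (q : ℕ) (c : ℕ → DD) (s σ : ℕ) (y : ℝ) : Finset ℕ :=
  (Finset.range q).filter (fun i => ∃ k : ℤ, |ev (c i) y - (k : ℝ) / 2 ^ s| ≤ 1 / 2 ^ σ)

/-- Sliver property. -/
def SLV (q : ℕ) (c : ℕ → DD) (s σ m0 : ℕ) : Prop := ∀ y ∈ Set.Icc (1 / 6 : ℝ) (5 / 6), (near q c s σ y).card ≤ m0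

/-! ## Digits -/

/-- A fixed bump function. -/
def BUMP (β : ℝ → ℝ) : Prop := ContDiff ℝ 3 β ∧ (∀ x, 0 ≤ β x ∧ β x ≤ 1) ∧ (∀ x ∈ Set.Icc (0 : ℝ) 1, β x = 1) ∧
  ∀ x, x ∉ Set.Ioo (-1 : ℝ) 2 → β x = 0

/-- The shift with digits `ω l / N`, amplitude `τ`, balls of radius about `2^-u`; it vanishes outside `(1/8,7/8)`. -/
noncomputable def Wd (β : ℝ → ℝ) (u N : ℕ) (τ : ℝ) (ω : ℕ → ℕ) (x : ℝ) : ℝ :=
  τ * ∑ l ∈ Finset.Ico (2 ^ (u - 3) + 2) (7 * 2 ^ (u - 3) - 2), ((ω l : ℝ) / N) * β (2 ^ u * x - l)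

/-- The beginnings of the blocks. -/
def sj (s0 : ℕ) : ℕ → ℕ
  | 0 => s0
  | j + 1 => sj s0 j + sj s0 j / 4

/-- Exponent of the amplitude of the batch `t` for the family `φ`. -/
def amp (w0 s0 t φ : ℕ) : ℕ := if t = 0 then s0 - w0 else sj s0 t + 3 * w0 * φ

/-- Exponent of the radius of the balls of the batch `t`. -/
def bu (w0 s0 t : ℕ) : ℕ := if t = 0 then (s0 - w0) / 4 else sj s0 t / 4

/-! ## Flows and conjugators

Labels `i < q`; `Q i = id + Σ_(i ≤ k < q) Y k`, `Q q = 1`, `F i = Q i * (Q (i+1))⁻¹`, so `Q 0 = F 0 * … * F (q-1)`. Conjugators `g i = (G i)⁻¹`.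
`R q = 1`, `R i = g i * F i * G i * R (i+1)`; `C i = (Q (i+1))⁻¹ * (G i * R (i+1))`. -/

/-- `Q i = id + Σ_(i ≤ k < q) Y k`. -/
def IsQ (q : ℕ) (Y : ℕ → ℝ → ℝ) (Q : ℕ → DD) : Prop := ∀ i ≤ q, Rep (Q i) (fun x => ∑ k ∈ Finset.Ico i q, Y k x)

/-- The partial residuals. -/
def IsR (q : ℕ) (G Q R : ℕ → DD) : Prop := R q = 1 ∧ ∀ i < q, R i = (G i)⁻¹ * (Q i * (Q (i + 1))⁻¹) * G i * R (i + 1)

/-- The maps of the system. -/
def Cm (G Q R : ℕ → DD) (i : ℕ) : DD := (Q (i + 1))⁻¹ * (G i * R (i + 1))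

/-- Lipschitz constant of the second derivative. -/
def Lp (g : DD) (L : ℝ) : Prop := ∀ x y : ℝ, |d2 (ev g) x - d2 (ev g) y| ≤ L * |x - y|

end Pool.Agent.helper90.DH
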