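import Pool.Agent.helper90.DH.Iface

/-!
# Project dh: (MP_5823cb_al): routing (section 8 of the page), definitions and interface

`y` is the normalised function to be routed (`|y| ≤ 1`, zero outside `[29/100,7/10]`). At the level `s` the maps `cm s i`, `i < q`, are used (constant in `s` inside a block).
Target cells may become hot (`D.H s` = new hot cells of level `s`), source cells may become critical (`D.K s`), a critical cell `k` of level `s` has the label set `D.G s k` for ever.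
-/

set_option autoImplicit false

open Filter Topology MeasureTheory
open scoped commutatorElement

namespace Pool.Agent.helper90.DH

open Pool.Agent.helper64.D2

/-- Routing data. -/
structure RD where
  H : ℕ → Finset ℤ
  K : ℕ → Finset ℤ
  G : ℕ → ℤ → Finset ℕ

/-- Parameters of the routing. -/
structure RP where
  q : ℕ
  /-- first level -/
  s0 : ℕ
  /-- below this level nothing is hot -/
  S1 : ℕ
  /-- width of the collars -/
  W : ℕ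
  /-- maximal number of event levels near a point which is not hot -/
  Nc : ℕ
  /-- threshold for the loads -/
  th : ℝ
  /-- threshold for `M (h* + 1_K)` -/
  th3 : ℝ

/-- The cut-off of the level `s`: zero near the cells of `B`, one outside the collar of width `W`. -/
def PsiP (Kp W : ℝ) (s : ℕ) (B : Finset ℤ) (ψ : ℝ → ℝ) : Prop := ContDiff ℝ 2 ψ ∧ (∀ x, 0 ≤ ψ x ∧ ψ x ≤ 1) ∧ (∀ x ∈ Nb 3 s B, ψ x = 0) ∧
  (∀ x, x ∉ Nb W s B → ψ x = 1) ∧ ∀ x, |deriv ψ x| ≤ Kp * (2 ^ s / W) ∧ |d2 ψ x| ≤ Kp * (2 ^ s / W) ^ 2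

/-- **PSI** (medium). Existence of the cut-offs. Proof: `1 -` (indicator of `Nb (W/2) s B`) convolved with a normed bump of radius `(W/4)/2^s` (`ContDiffBump.normed`, `contDiff_convolution…`; the derivatives fall on the bump,
whose first and second derivatives have `L^1` norms `≤ K 2^s/W`, `≤ K (2^s/W)^2` by scaling). `Nb 3 s B` is at distance `≥ (W/4)/2^s` from the complement of `Nb (W/2) s B` since `W/2 - 3 ≥ W/4`. -/
def PSI_stmt : Prop := ∃ Kp : ℝ, 1 ≤ Kp ∧ ∀ (W : ℝ) (s : ℕ) (B : Finset ℤ), 12 ≤ W → ∃ ψ : ℝ → ℝ, PsiP Kp W s B ψ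

open Classical in
/-- A choice of the cut-off. -/
noncomputable def psi (Kp W : ℝ) (s : ℕ) (B : Finset ℤ) : ℝ → ℝ := if h : ∃ ψ, PsiP Kp W s B ψ then h.choose else 1

/-- The openness. -/
noncomputable def eta (Kp : ℝ) (p : RP) (D : RD) (s : ℕ) (x : ℝ) : ℝ := ∏ s' ∈ Finset.Icc p.s0 s, psi Kp p.W s' (D.H s') x

/-- `x` is in a hot cell of level at most `s`. -/
def hot (p : RP) (D : RD) (s : ℕ) (x : ℝ) : Prop := ∃ s' ∈ Finset.Icc p.s0 s, ci s' x ∈ D.H s'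

/-- The source cell `k` of level `s` is contained in a critical cell of level at most `s`. -/
def crit (p : RP) (D : RD) (s : ℕ) (k : ℤ) : Prop := ∃ s' ∈ Finset.Icc p.s0 s, k / 2 ^ (s - s') ∈ D.K s'

/-- The collars. -/
def Hc (p : RP) (D : RD) (s : ℕ) : Set ℝ := {x | ∃ s' ∈ Finset.Icc p.s0 s, x ∈ Nb (p.W + 6) s' (D.H s')}

/-- The enlarged source cell. -/
def Xp (s : ℕ) (k : ℤ) : Set ℝ := Set.Icc (((k : ℝ) - 1 / 8) / 2 ^ s) (((k : ℝ) + 1 + 1 / 8) / 2 ^ s)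

open Classical in
/-- Number of event levels near `x`. -/
noncomputable def nev (p : RP) (D : RD) (s : ℕ) (x : ℝ) : ℕ := ((Finset.Icc p.s0 s).filter (fun s' => x ∈ Nb (p.W + 6) s' (D.H s'))).card

open Classical in
/-- Number of labels which lead from `y` to a critical cell. -/
noncomputable def deg (p : RP) (cm : ℕ → ℕ → DD) (D : RD) (s : ℕ) (y : ℝ) : ℕ :=
  ((Finset.range p.q).filter (fun i => ∃ s' ∈ Finset.Icc p.s0 s, ∃ k ∈ D.K s', ev (cm s' i) y ∈ Xp s' k)).card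

open Classical in
/-- Number of labels which are used by critical cells at `y`. -/
noncomputable def usg (p : RP) (cm : ℕ → ℕ → DD) (D : RD) (s : ℕ) (y : ℝ) : ℕ :=
  ((Finset.range p.q).filter (fun i => ∃ s' ∈ Finset.Icc p.s0 s, ∃ k ∈ D.K s', i ∈ D.G s' k ∧ ev (cm s' i) y ∈ Xp s' k)).card

/-- The targets with many critical sources. -/
def YK (p : RP) (cm : ℕ → ℕ → DD) (D : RD) (s : ℕ) : Set ℝ := {y | (p.q : ℝ) / 3000 ≤ deg p cm D s y}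

open Classical in
/-- The fraction of the labels which lead from the cell of `z` to the collars. -/
noncomputable def hst (p : RP) (cm : ℕ → ℕ → DD) (D : RD) (s : ℕ) (z : ℝ) : ℝ :=
  (((Finset.range p.q).filter (fun i => ∃ z' ∈ cell s (ci s z), ev (cm s i)⁻¹ z' ∈ Hc p D s)).card : ℝ) / p.q

open Classical in
/-- Indicator of the critical cells and their neighbours. -/
noncomputable def KI (p : RP) (D : RD) (s : ℕ) (z : ℝ) : ℝ := if ∃ s' ∈ Finset.Icc p.s0 s, ∃ k ∈ D.K s', |ci s' z - k| ≤ 1 then 1 else 0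

open Classical in
/-- The weight of the label `i` on the source cell `k` of level `s`. -/
noncomputable def wt (Kp : ℝ) (p : RP) (cm : ℕ → ℕ → DD) (D : RD) (s : ℕ) (i : ℕ) (k : ℤ) : ℝ :=
  if h : crit p D s k then
    (let s' := Nat.find (p := fun s' => s' ∈ Finset.Icc p.s0 s ∧ k / 2 ^ (s - s') ∈ D.K s') (by obtain ⟨s', h1, h2⟩ := h; exact ⟨s', h1, h2⟩)
     if i ∈ D.G s' (k / 2 ^ (s - s')) then 1 / ((D.G s' (k / 2 ^ (s - s'))).card : ℝ) else 0)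
  else eta Kp p D s (ev (cm s i)⁻¹ ((k : ℝ) / 2 ^ s)) / ∑ j ∈ Finset.range p.q, eta Kp p D s (ev (cm s j)⁻¹ ((k : ℝ) / 2 ^ s))

/-- The function routed through the label `i`, up to the level `S`. -/
noncomputable def ui (Kp : ℝ) (p : RP) (cm : ℕ → ℕ → DD) (D : RD) (y : ℝ → ℝ) (S i : ℕ) (x : ℝ) : ℝ :=
  Es p.s0 y x / p.q + ∑ s ∈ Finset.Ico p.s0 S, wt Kp p cm D s i (ci s x) * Ds s y x

/-- The region in which targets may be hot and sources may be critical (`y = 0` outside `[29/100,7/10]`). -/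
def Rg : Set ℝ := Set.Icc (285 / 1000 : ℝ) (715 / 1000)

/-- The rules at the level `s` which are used for the loads. -/
def RL (p : RP) (cm : ℕ → ℕ → DD) (D : RD) (y : ℝ → ℝ) (s : ℕ) : Prop :=
  (∀ k ∈ D.H s, (cell s k ∩ Rg).Nonempty ∧ ∀ s' ∈ Finset.Ico p.s0 s, k / 2 ^ (s - s') ∉ D.H s') ∧
  (∀ k ∈ D.K s, (cell s k ∩ Rg).Nonempty ∧ ∀ s' ∈ Finset.Ico p.s0 s, k / 2 ^ (s - s') ∉ D.K s') ∧
  (∀ x ∈ Rg, ¬ hot p D s x → x ∉ BdS p.q (cm s) p.s0 p.S1 p.th y s) ∧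
  (s < p.S1 → D.H s = ∅ ∧ D.K s = ∅) ∧
  (∀ x ∈ Rg, ¬ hot p D s x → nev p D s x < p.Nc) ∧
  (∀ x ∈ Rg, ¬ hot p D s x → Mop p.q (cm s) (fun z => hst p cm D s z + KI p D s z) x ≤ p.th3) ∧
  (∀ k : ℤ, (cell s k ∩ Rg).Nonempty → ¬ crit p D s k → ∀ T : Finset ℕ, T ⊆ Finset.range p.q →
    (∀ i ∈ T, ∃ z ∈ Xp s k, ev (cm s i)⁻¹ z ∈ Hc p D s ∪ YK p cm D s) → (T.card : ℝ) ≤ p.q / 100) ∧
  (∀ k ∈ D.K s, D.G s k ⊆ Finset.range p.q ∧ (p.q : ℝ) / 2 ≤ (D.G s k).card ∧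
    (p.s0 < s → ∀ i ∈ D.G s k, ∀ z ∈ Xp s k, ev (cm s i)⁻¹ z ∉ Hc p D (s - 1) ∪ YK p cm D (s - 1))) ∧
  ∀ y', (usg p cm D s y' : ℝ) ≤ p.q / 1000

/-- Legality of the hot and critical cells at the level `s` (used for the measure estimates; with the data of the level `s`). -/
def LG (p : RP) (cm : ℕ → ℕ → DD) (D : RD) (y : ℝ → ℝ) (s : ℕ) : Prop :=
  (∀ k ∈ D.H s, ∃ x ∈ cell s k, x ∈ BdS p.q (cm s) p.s0 p.S1 p.th y s ∨ p.Nc ≤ nev p D s x ∨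
    p.th3 < Mop p.q (cm s) (fun z => hst p cm D s z + KI p D s z) x) ∧
  ∀ k ∈ D.K s, ∃ T : Finset ℕ, T ⊆ Finset.range p.q ∧ (p.q : ℝ) / 100 < T.card ∧
    ∀ i ∈ T, ∃ z ∈ Xp s k, ev (cm s i)⁻¹ z ∈ Hc p D s ∪ YK p cm D s

/-- The data are correct for all levels below `S`. -/
def ROk (p : RP) (cm : ℕ → ℕ → DD) (D : RD) (y : ℝ → ℝ) (S : ℕ) : Prop := ∀ s, p.s0 ≤ s → s < S → RL p cm D y s ∧ LG p cm D y s

/-- The hypotheses on the maps at the levels `s0 ≤ s ≤ S`: `σ s` is the precision to which the maps of the level `s` are final. -/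
def HY (K0 : ℝ) (w0 a q s0 S m0 : ℕ) (cm : ℕ → ℕ → DD) (σ : ℕ → ℕ) (δ : ℝ) : Prop :=
  (∀ s, s0 ≤ s → s ≤ S → NI q (cm s) δ (2 ^ (w0 + 3) / 2 ^ s0) ∧ s + 1 + (s + 1) / 8 ≤ σ s ∧ SLV q (cm s) (s + 1) (σ s) m0 ∧
    (∀ s', s0 ≤ s' → s' ≤ s + w0 + a → GAP q (cm s) s' (K0 / 2 ^ w0))) ∧
  ∀ s s', s0 ≤ s → s ≤ s' → s' ≤ S → σ s ≤ σ s' ∧ ∀ i < q, ∀ x, |ev (cm s' i) x - ev (cm s i) x| ≤ 1 / 2 ^ (σ s + 2)

/-- Locality: the rules below the level `S` depend only on the maps and on the data of the levels below `S`. Proof: all quantifiers over levels are bounded by `s < S` (unfold). -/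
def RLOC_stmt : Prop := ∀ (p : RP) (cm cm' : ℕ → ℕ → DD) (D D' : RD) (y : ℝ → ℝ) (S : ℕ),
  (∀ s < S, cm s = cm' s ∧ D.H s = D'.H s ∧ D.K s = D'.K s ∧ D.G s = D'.G s) →
  (ROk p cm D y S → ROk p cm' D' y S) ∧ ∀ (Kp : ℝ) (i : ℕ), ui Kp p cm D y S i = ui Kp p cm' D' y S i

/-- **ROUT** (result of section 8). One level of the routing, and the loads at the end. The constants `W, Nc, a, th, th3, δ, B0` are absolute (they depend on `Kp, K0, m0`). -/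
def ROUT_stmt : Prop := ∀ (Kp K0 : ℝ) (m0 : ℕ), 1 ≤ Kp → 1 ≤ K0 → (∀ (W : ℝ) (s : ℕ) (B : Finset ℤ), 12 ≤ W → ∃ ψ : ℝ → ℝ, PsiP Kp W s B ψ) →
  ∃ (W Nc a w1 : ℕ) (th th3 δ B0 : ℝ), 12 ≤ W ∧ 0 < th ∧ 0 < th3 ∧ 0 < δ ∧ 1 ≤ B0 ∧ ∀ w0 : ℕ, w1 ≤ w0 → ∃ q0 : ℕ, ∀ (q s0 : ℕ), q0 ≤ q → q0 ≤ s0 →
    ∀ p : RP, p = ⟨q, s0, s0 + w0 - a * LL w0, W, Nc, th, th3⟩ →
    ∀ (cm : ℕ → ℕ → DD) (σ : ℕ → ℕ) (y : ℝ → ℝ) (N : ℕ), PA N y → (∀ x, x ∉ Set.Icc (29 / 100 : ℝ) (7 / 10) → y x = 0) → (∀ x, |y x| ≤ 1) →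
    ∀ (S : ℕ) (D : RD), s0 ≤ S → S < N → HY K0 w0 a q s0 S m0 cm σ δ →
      (ROk p cm D y S → ∃ D' : RD, (∀ s < S, D'.H s = D.H s ∧ D'.K s = D.K s ∧ D'.G s = D.G s) ∧ ROk p cm D' y (S + 1)) ∧
      (ROk p cm D y (S + 1) → (∀ x, ∑ i ∈ Finset.range q, ui Kp p cm D y (S + 1) i x = Es (S + 1) y x) ∧
        (∀ i < q, ∀ x, |ui Kp p cm D y (S + 1) i x| ≤ B0 / q) ∧
        (∀ (i s : ℕ) (k : ℤ), s0 ≤ s → s ≤ S → (∃ x ∈ cell s k, Ds s y x ≠ 0) → |wt Kp p cm D s i k| ≤ 2 / q) ∧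
        ∀ c : ℕ → DD, (∀ i < q, ∀ x, |ev (c i) x - ev (cm S i) x| ≤ 1 / 2 ^ (σ S + 2)) → ∀ t : ℕ → ℝ, (∀ i, |t i| ≤ 1 / 2 ^ (σ S + 2)) → ∀ x,
          |∑ i ∈ Finset.range q, (ui Kp p cm D y (S + 1) i (ev (c i) x + t i) - Es s0 y (ev (c i) x + t i) / q)| ≤ 1 / 32)

end Pool.Agent.helper90.DH
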