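import Pool.Agent.helper90.DH.RDefs

/-!
# Project dh: (MP_5823cb_al): stage theorem, definitions and interface of the flow functions (SpecY) and of the end (FIN)
-/

set_option autoImplicit false

open Filter Topology MeasureTheory
open scoped commutatorElement

namespace Pool.Agent.helper90.DH

open Pool.Agent.helper64.D2

/-- `ρ(n)`. -/
def rn (n : ℕ) : ℕ := 2 ^ (n / 400)

/-- `s0(n) = ρ^2`. -/
def s0n (n : ℕ) : ℕ := rn n ^ 2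

/-- `q(n) = ρ^4`. -/
def qn (n : ℕ) : ℕ := rn n ^ 4

/-- The conclusion of the stage theorem for `G0` (interface with helper81, `MAIN_stmt`). -/
def MC (n : ℕ) (G0 : DD) (p p' : ℝ) : Prop := ∃ (R u v : ℕ → DD) (X' : ℝ → ℝ), R 0 = G0 ∧ (∀ j, R (j + 1) = ⁅u j, v j⁆ * R j) ∧
  (∀ j, Sz (R j) (1 / 2 ^ (n / 3)) ∧ Sz (u j) (1 / 2 ^ (n / 3)) ∧ Sz (v j) (1 / 2 ^ (n / 3))) ∧ (∀ j ≥ qn n, u j = 1 ∧ v j = 1) ∧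
  Rep (R (qn n)) X' ∧ ContDiff ℝ 2 X' ∧ (∀ x, |d2 X' x| ≤ 1 / 2 ^ (n + 2)) ∧
  ∀ x, x ∉ Set.Icc (p - 1 / 2 ^ (n / 4)) (p' + 1 / 2 ^ (n / 4)) → X' x = 0

/-- The hypotheses of the stage theorem. -/
def MH (n c : ℕ) (G0 : DD) (Z : ℝ → ℝ) (p p' : ℝ) : Prop := Rep G0 Z ∧ ContDiff ℝ 2 Z ∧ (∀ x, x ∉ Set.Icc p p' → Z x = 0) ∧ 3 / 10 ≤ p ∧ p ≤ p' ∧ p' ≤ 6 / 10 ∧
  ∀ x, |d2 Z x| ≤ 4 / 2 ^ n ∧ |deriv Z x| ≤ 1 / 2 ^ (n + s0n n + c) ∧ |Z x| ≤ 1 / 2 ^ (n + 2 * s0n n + c)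

/-- **The stage theorem.** -/
def MAINH_stmt : Prop := ∃ n0 c : ℕ, ∀ n : ℕ, n0 ≤ n → ∀ (G0 : DD) (Z : ℝ → ℝ) (p p' : ℝ), MH n c G0 Z p p' → MC n G0 p p'

/-- Kernels for the mollification. -/
def KER (κ : ℝ → ℝ) : Prop := ContDiff ℝ 1 κ ∧ (∀ x, 0 ≤ κ x) ∧ (∀ x, κ (-x) = κ x) ∧ (∀ x, x ∉ Set.Icc (-1 : ℝ) 1 → κ x = 0) ∧ (∫ x, κ x) = 1

/-- Mollification at the scale `h`. -/
noncomputable def mol (κ : ℝ → ℝ) (h : ℝ) (v : ℝ → ℝ) (x : ℝ) : ℝ := ∫ t, κ t * v (x - h * t)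

/-- The second antiderivative (from `0`). -/
noncomputable def A2 (v : ℝ → ℝ) (x : ℝ) : ℝ := ∫ t in (0 : ℝ)..x, (x - t) * v t

/-- The routed function with the weights `w s k`: levels `s0 ≤ s < S`. -/
noncomputable def vf (q s0 S : ℕ) (w : ℕ → ℤ → ℝ) (y : ℝ → ℝ) (x : ℝ) : ℝ :=
  Es s0 y x / q + ∑ s ∈ Finset.Ico s0 S, w s (ci s x) * Ds s y x

/-- The standing hypotheses on `y`: piecewise affine, supported in `[p,p'] ⊆ [29/100,7/10]`, bounded by one, two vanishing moments, small antiderivatives. -/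
def YH (N s0 : ℕ) (p p' : ℝ) (y : ℝ → ℝ) : Prop := PA N y ∧ 29 / 100 ≤ p ∧ p ≤ p' ∧ p' ≤ 7 / 10 ∧ (∀ x, x ∉ Set.Icc p p' → y x = 0) ∧ (∀ x, |y x| ≤ 1) ∧
  (∫ t, y t) = 0 ∧ (∫ t, t * y t) = 0 ∧ ∀ x, |∫ t in (0 : ℝ)..x, y t| ≤ 1 / 2 ^ s0 ∧ |A2 y x| ≤ 1 / 2 ^ (2 * s0)

/-- The standing hypotheses on the weights. -/
def WH (q s0 S : ℕ) (B : ℝ) (w : ℕ → ℤ → ℝ) (y : ℝ → ℝ) : Prop :=
  (∀ s k, s0 ≤ s → s < S → (∃ x ∈ cell s k, Ds s y x ≠ 0) → |w s k| ≤ 2 / q) ∧ ∀ x, |vf q s0 S w y x| ≤ B / q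

/-- **YGEN** (part Y, helper48). The flow functions `Y = A2 (A * mol κ h v)`.
Proof. Every `w s (ci s x) * Ds s y x` is `w s k` times `Ds s y` on the cell `k`, with two vanishing moments on the cell, so its first and second antiderivatives vanish outside the cell and are bounded by `K 2^-s/q`, `K 2^(-2s)/q`.
The first antiderivative of `Es s0 y` agrees with that of `y` at the grid of level `s0` and differs by `K 2^-s0` inside; the same for the second (with `2^(-2 s0)`). `A2 (mol κ h v) = mol κ h (A2 v)` (moments vanish), and `|mol κ h U - U| ≤ K h^2 sup|U''|` for `U = A2 v` (`U'` Lipschitz, `κ` even). -/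
def YGEN_stmt : Prop := ∀ κ : ℝ → ℝ, KER κ → ∃ K : ℝ, 1 ≤ K ∧ ∀ (q s0 S N : ℕ) (p p' A B h : ℝ) (y : ℝ → ℝ) (w : ℕ → ℤ → ℝ), 1 ≤ q → 10 ≤ s0 → s0 ≤ S → S ≤ N →
  YH N s0 p p' y → WH q s0 S B w y → 0 < A → A ≤ 1 → 1 ≤ B → 0 < h → h ≤ 1 / 2 ^ s0 →
  (ContDiff ℝ 2 (A2 (fun x => A * mol κ h (vf q s0 S w y) x)) ∧
    (∀ x, x ∉ Set.Icc (p - 4 / 2 ^ s0) (p' + 4 / 2 ^ s0) → A2 (fun x => A * mol κ h (vf q s0 S w y) x) x = 0) ∧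
    ∀ x, d2 (A2 (fun x => A * mol κ h (vf q s0 S w y) x)) x = A * mol κ h (vf q s0 S w y) x ∧
      |A * mol κ h (vf q s0 S w y) x| ≤ A * B / q ∧ |deriv (A2 (fun x => A * mol κ h (vf q s0 S w y) x)) x| ≤ K * A / (q * 2 ^ s0) ∧
      |A2 (fun x => A * mol κ h (vf q s0 S w y) x) x| ≤ K * A * B / (q * 2 ^ (2 * s0)) ∧
      ∀ x', |A * mol κ h (vf q s0 S w y) x - A * mol κ h (vf q s0 S w y) x'| ≤ K * A * B / (q * h) * |x - x'|) ∧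
  ∀ (S' : ℕ) (w' : ℕ → ℤ → ℝ) (h' : ℝ), S ≤ S' → S' ≤ N → WH q s0 S' B w' y → (∀ s < S, w' s = w s) → 0 < h' → h' ≤ h →
    ∀ x, |A2 (fun x => A * mol κ h' (vf q s0 S' w' y) x) x - A2 (fun x => A * mol κ h (vf q s0 S w y) x) x| ≤ K * A * B * (1 / 2 ^ (2 * S) + h ^ 2) / q

/-- **YIN** (part Y, helper48). The function `y`: from `Z` (with `MH`) to `y = Es N (Z''/(5/2^n))` for `N` large.
Proof. `f = d2 Z / (5/2^n)` is continuous with compact support, `|f| ≤ 4/5`; choose `N` with oscillation of `f` at most `1/2^(2n+2)` at the distance `2/2^N`; `|Es N f - f| ≤ 2 osc`; moments of `Es N f` = moments of `f` = `0` (BAS: `Z`, `Z'` vanish outside); antiderivatives of `Es N f` agree with those of `f`,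
`= Z'/(5/2^n)`, `Z/(5/2^n)`, at the grid of level `N`. `|Es s0 (Es N f)| = |Es s0 f| ≤ 8 · 2^(s0) sup |Z'| 2^n/5`. -/
def YIN_stmt : Prop := ∃ c n0 : ℕ, ∀ n : ℕ, n0 ≤ n → ∀ (G0 : DD) (Z : ℝ → ℝ) (p p' : ℝ), MH n c G0 Z p p' → ∀ N0 : ℕ, ∃ N : ℕ, N0 ≤ N ∧ ∀ N' : ℕ, N ≤ N' →
  YH N' (s0n n) (p - 1 / 2 ^ s0n n) (p' + 1 / 2 ^ s0n n) (Es N' (fun x => d2 Z x / (5 / 2 ^ n))) ∧
  (∀ x, |Es N' (fun x => d2 Z x / (5 / 2 ^ n)) x - d2 Z x / (5 / 2 ^ n)| ≤ 1 / 2 ^ (2 * n)) ∧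
  (∀ x, |Es (s0n n) (Es N' (fun x => d2 Z x / (5 / 2 ^ n))) x| ≤ 1 / 1000) ∧
  ∀ x x', |x - x'| ≤ 1 / 2 ^ N' → |d2 Z x - d2 Z x'| ≤ (5 / 2 ^ n) / 2 ^ (2 * n)

/-- **FIN** (part Y, helper48). From the final data to the conclusion. `A = 5/2^n`, `y = Es N (Z''/A)`, weights `w i` of the label `i`, conjugators `Gc`, current flows `Yc`, maps `Cm Gc Qc Rc`.
Proof. `Y_i = A2 (A * mol κ h (vf … (w i) y))` with `h` tiny (YGEN for `S = N`), `Σ_i Y_i'' = A mol κ h y` (`Σ_i vf = y`), BDD for `Gc` gives `Q, R`; FST compares with the current maps: `|Cm Gc Q R i - Cm Gc Qc Rc i| ≤ K q (1/(q^2 2^σ)) ≤ 1/2^σ`. RES: `(R 0)'' = Σ_i Y_i''(C_i) + O(…)`,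
`Σ_i Y_i''(C_i x) = A ∫ κ(t) Σ_i v_i (C_i x - h t) dt`, and by the load hypothesis (all `t_i = -h t`) and `|Es s0 y| ≤ 1/1000` it is at most `A (1/32 + 1/1000)`. CID: chain from `Q 0` to `R 0`; `H = G0 * (Q 0)⁻¹` has `|H''| ≤ K A/2^(2n)` (RAT); multiply the chain by `H` from the left
(`u, v` conjugated by `H`). `1/32 · 5 + … < 1/4`. Sizes `K A B ≤ 1/2^(n/3)`. Support of `R 0`: product of `G_i⁻¹ F_i G_i`. -/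
def FIN_stmt : Prop := ∀ (κ : ℝ → ℝ) (B : ℝ), KER κ → 1 ≤ B → ∃ n0 : ℕ, ∀ n : ℕ, n0 ≤ n → ∀ (c : ℕ) (G0 : DD) (Z y : ℝ → ℝ) (p p' : ℝ) (N σ : ℕ) (w : ℕ → ℕ → ℤ → ℝ)
  (Gc Qc Rc : ℕ → DD) (Yc : ℕ → ℝ → ℝ) (L : ℝ), MH n c G0 Z p p' → s0n n ≤ N → N ≤ σ →
  y = Es N (fun x => d2 Z x / (5 / 2 ^ n)) → YH N (s0n n) (p - 1 / 2 ^ s0n n) (p' + 1 / 2 ^ s0n n) y → (∀ x, |y x - d2 Z x / (5 / 2 ^ n)| ≤ 1 / 2 ^ (2 * n)) →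
  (∀ x, |Es (s0n n) y x| ≤ 1 / 1000) → (∀ x x', |x - x'| ≤ 1 / 2 ^ N → |d2 Z x - d2 Z x'| ≤ (5 / 2 ^ n) / 2 ^ (2 * n)) →
  (∀ i < qn n, WH (qn n) (s0n n) N B (w i) y) → (∀ x, ∑ i ∈ Finset.range (qn n), vf (qn n) (s0n n) N (w i) y x = y x) →
  (∀ i < qn n, Sz (Gc i) (1 / ((qn n : ℝ) * 2 ^ (3 * n)))) → IsQ (qn n) Yc Qc → IsR (qn n) Gc Qc Rc → FLW (qn n) Yc ((5 / 2 ^ n) * B) (1 / (qn n : ℝ) ^ 2) L →
  (∀ h : ℝ, 0 < h → h ≤ 1 / 2 ^ (2 * N) → ∀ i < qn n, ∀ x,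
    |Yc i x - A2 (fun x => (5 / 2 ^ n) * mol κ h (vf (qn n) (s0n n) N (w i) y) x) x| ≤ 1 / ((qn n : ℝ) ^ 2 * 2 ^ σ)) →
  (∀ cc : ℕ → DD, (∀ i < qn n, ∀ x, |ev (cc i) x - ev (Cm Gc Qc Rc i) x| ≤ 1 / 2 ^ σ) → ∀ t : ℕ → ℝ, (∀ i, |t i| ≤ 1 / 2 ^ σ) → ∀ x,
    |∑ i ∈ Finset.range (qn n), (vf (qn n) (s0n n) N (w i) y (ev (cc i) x + t i) - Es (s0n n) y (ev (cc i) x + t i) / (qn n))| ≤ 1 / 32) →
  MC n G0 p p'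

end Pool.Agent.helper90.DH
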