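import Pool.Agent.helper69.DH.RDefs2

/-!
# Project dh/d2: (MP_5823cb_al): the induction over the blocks and the stage theorem

Rules: see `Iface.lean` (here `import Pool.Agent.helper90.DH.SpecI`). Modules `XX` in `Pool/Agent/<seat>/DHI/XX.lean`, `theorem XX (hYY : YY_stmt) … : XX_stmt`, auxiliary lemmas prefixed `XX_`.
-/

set_option autoImplicit false

open Filter Topology MeasureTheory
open scoped commutatorElement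

namespace Pool.Agent.helper90.DH

open Pool.Agent.helper64.D2

/-! ## Instantiated forms of BAT and ROU -/

/-- The conclusion of BAT for fixed constants. -/
def BATc (β : ℝ → ℝ) (K : ℝ) (m0 w0 : ℕ) (th : ℝ) (ρ : ℕ) : Prop :=
  ∀ (t : ℕ) (P E : ℕ → DD), (∀ i, Sz (P i) (1 / 1000) ∧ Sz (E i) (1 / 1000)) →
  (∀ r k : ℕ, r ≤ bu w0 (ρ ^ 2) t → 2 * k * ρ ^ 3 ≤ r → SPR (ρ ^ 4) (fun i => P i * E i) r k th 4) →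
  ∃ ω : ℕ → ℕ → ℕ, (∀ i l, ω i l < 2 ^ sj (ρ ^ 2) (t + 1)) ∧ ∀ c : ℕ → DD,
    (∀ i x, ev (c i) x = ev (P i) (ev (E i) x +
      Wd β (bu w0 (ρ ^ 2) t) (2 ^ sj (ρ ^ 2) (t + 1)) (1 / 2 ^ amp w0 (ρ ^ 2) t (i % 2 ^ w0)) (ω i) x)) →
    (∀ φ < 2 ^ w0, ∀ s : ℕ, amp w0 (ρ ^ 2) t φ + w0 ≤ s → s ≤ sj (ρ ^ 2) (t + 1) + 3 * w0 * 2 ^ w0 →
      FG (ρ ^ 4) (2 ^ w0) φ c s (K / 2 ^ w0)) ∧
    (∀ k : ℕ, k * ρ ^ 3 ≤ sj (ρ ^ 2) (t + 1) → SPR (ρ ^ 4) c (sj (ρ ^ 2) (t + 1)) k th 8) ∧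
    (1 ≤ t → SLV (ρ ^ 4) c (sj (ρ ^ 2) t) (sj (ρ ^ 2) t + sj (ρ ^ 2) t / 8) m0)

/-- The conclusion of ROU for fixed constants. -/
def ROUc (K0 : ℝ) (m0 w0 a : ℕ) (δ B0 : ℝ) (q s0 : ℕ) : Prop :=
  ∀ (cm : ℕ → ℕ → DD) (σ : ℕ → ℕ) (y : ℝ → ℝ) (N : ℕ), PA N y → (∀ x, x ∉ Set.Icc (29 / 100 : ℝ) (7 / 10) → y x = 0) → (∀ x, |y x| ≤ 1) →
    ∀ (S : ℕ) (D : RD), s0 ≤ S → S < N → HY K0 w0 a q s0 S m0 cm σ δ →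
      (ROK (rPP q s0 w0 a cm y) D S →
        ∃ D' : RD, (∀ s < S, D'.H s = D.H s ∧ D'.K s = D.K s ∧ D'.G s = D.G s) ∧ ROK (rPP q s0 w0 a cm y) D' (S + 1)) ∧
      (ROK (rPP q s0 w0 a cm y) D (S + 1) →
        (∀ (s : ℕ) (k : ℤ), s0 ≤ s → s ≤ S → (∑ i ∈ Finset.range q, rwt (rPP q s0 w0 a cm y) D s i k) = 1 ∧
          ∀ i < q, |rwt (rPP q s0 w0 a cm y) D s i k| ≤ 2 / q) ∧
        (∀ i < q, ∀ x, |vf q s0 (S + 1) (fun s k => rwt (rPP q s0 w0 a cm y) D s i k) y x| ≤ B0 / q) ∧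
        ∀ c : ℕ → DD, (∀ i < q, ∀ x, |ev (c i) x - ev (cm S i) x| ≤ 1 / 2 ^ (σ S + 2)) → ∀ t : ℕ → ℝ, (∀ i, |t i| ≤ 1 / 2 ^ (σ S + 2)) → ∀ x,
          |∑ i ∈ Finset.range q, (vf q s0 (S + 1) (fun s k => rwt (rPP q s0 w0 a cm y) D s i k) y (ev (c i) x + t i) -
            Es s0 y (ev (c i) x + t i) / q)| ≤ 1 / 32)

/-! ## Numbers -/

/-- **SJM** (short/medium). The sequence `sj`. uses: nothing.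
Proof. `sj (t+1) = sj t + sj t / 4` (Nat division), `sj t ≥ s0` by induction; `4 * (sj t / 4) ≤ sj t ≤ 4 * (sj t / 4) + 3`. Unboundedness: `sj t ≥ s0 + t` as `sj t / 4 ≥ 1`. -/
def SJM_stmt : Prop := ∀ s0 : ℕ, 1000 ≤ s0 → (∀ t, s0 ≤ sj s0 t) ∧ (∀ t, sj s0 t < sj s0 (t + 1)) ∧ (∀ t, 5 * sj s0 t ≤ 4 * sj s0 (t + 1) + 4) ∧
  (∀ t, 4 * sj s0 (t + 1) ≤ 5 * sj s0 t) ∧ (∀ t t', t ≤ t' → sj s0 t ≤ sj s0 t') ∧ (∀ t, s0 + t ≤ sj s0 t) ∧ ∀ t, s0 / 4 + sj s0 t ≤ sj s0 (t + 1)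

/-- Everything which depends polynomially on `q` is negligible against `2^(s0/1000)`. -/
def NB (C w0 q s0 : ℕ) : Prop := 1 ≤ q ∧ C ≤ q ∧ C * q ^ 10 * 2 ^ (10 * w0) ≤ 2 ^ (s0 / 1000) ∧ 1000 * (3 * w0 * 2 ^ w0 + 10 * w0 + C) ≤ s0

/-- **NUM** (short/medium). uses: nothing.
Proof. `C (ρ^4)^10 2^(10 w0) ≤ 2^(ρ^2/1000)` for `ρ` large: e.g. with `C 2^(10 w0) ≤ ρ` it is enough that `ρ^41 ≤ 2^(ρ^2/1000)`; `ρ ≤ 2^ρ` gives `ρ^41 ≤ 2^(41 ρ)` and `41 ρ ≤ ρ^2/1000` for `ρ ≥ 41001`. -/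
def NUM_stmt : Prop := ∀ C w0 : ℕ, ∃ ρ1 : ℕ, ∀ ρ : ℕ, ρ1 ≤ ρ → NB C w0 (ρ ^ 4) (ρ ^ 2)

/-! ## The history of the maps -/

/-- The drift after the batch `t` up to the batch `T`, for the family `φ`. -/
noncomputable def drf (w0 s0 t T φ : ℕ) : ℝ := ∑ t' ∈ Finset.Ioc t T, (7 / 2) / 2 ^ amp w0 s0 t' φ

/-- The size of the conjugators after the batch `T`. -/
noncomputable def gam (s0 T : ℕ) : ℝ := ∑ t ∈ Finset.range (T + 1), 1 / 2 ^ (sj s0 t / 16)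

/-- The properties of the maps `c` after the batch `t`. -/
def BPR (KB th : ℝ) (m0 w0 ρ t : ℕ) (c : ℕ → DD) : Prop :=
  (∀ φ < 2 ^ w0, ∀ s : ℕ, amp w0 (ρ ^ 2) t φ + w0 ≤ s → s ≤ sj (ρ ^ 2) (t + 1) + 3 * w0 * 2 ^ w0 → FG (ρ ^ 4) (2 ^ w0) φ c s (KB / 2 ^ w0)) ∧
  (∀ k : ℕ, k * ρ ^ 3 ≤ sj (ρ ^ 2) (t + 1) → SPR (ρ ^ 4) c (sj (ρ ^ 2) (t + 1)) k th 8) ∧
  (1 ≤ t → SLV (ρ ^ 4) c (sj (ρ ^ 2) t) (sj (ρ ^ 2) t + sj (ρ ^ 2) t / 8) m0)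

/-- The history: `cs t` are the maps after the batch `t ≤ T`. -/
def HIS (KB th δ : ℝ) (m0 w0 ρ T : ℕ) (cs : ℕ → ℕ → DD) : Prop := ∀ t ≤ T, BPR KB th m0 w0 ρ t (cs t) ∧
  ∀ i < ρ ^ 4, Sz (cs t i) δ ∧ (∀ x, |ev (cs t i) x - x| ≤ (7 / 2) / 2 ^ (ρ ^ 2 - w0) + drf w0 (ρ ^ 2) 0 t (i % 2 ^ w0)) ∧
    ∀ t', t ≤ t' → t' ≤ T → ∀ x, |ev (cs t' i) x - ev (cs t i) x| ≤ drf w0 (ρ ^ 2) t t' (i % 2 ^ w0)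

/-- **DRF** (short/medium). uses: SJM.
Proof. For `t' ≥ 1`: `amp (t'+1) φ ≥ amp t' φ + s0/4`, so the sum is at most `(7/2)/2^(amp (t+1) φ) · Σ_k 2^(-(s0/4) k) ≤ (15/4)/2^(amp (t+1) φ)` (empty sum if `T ≤ t`). Second: `amp 1 φ ≥ sj 1 ≥ s0 + s0/4`, so `15/4/2^(amp 1 φ) ≤ (1/2)/2^(s0-w0)`. `gam`: `sj (t+1)/16 ≥ sj t/16 + 15`.
Third: `amp (t+1) φ ≤ amp (T+1) φ` for `t ≤ T`, and `amp (j+2) φ = sj (j+2) + 3 w0 φ ≤ (25/16) sj j + 3 w0 2^w0 ≤ sj j + 3 (sj j/4) - 2`. -/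
def DRF_stmt : Prop := ∀ w0 s0 : ℕ, 1000 * (3 * w0 * 2 ^ w0 + 10 * w0 + 1) ≤ s0 → (∀ t T φ : ℕ, drf w0 s0 t T φ ≤ (15 / 4) / 2 ^ amp w0 s0 (t + 1) φ) ∧
  (∀ t φ : ℕ, (7 / 2) / 2 ^ (s0 - w0) + drf w0 s0 0 t φ ≤ 4 / 2 ^ (s0 - w0)) ∧ (∀ T, 0 ≤ gam s0 T ∧ gam s0 T ≤ 2 / 2 ^ (s0 / 16)) ∧
  (∀ t T φ : ℕ, t ≤ T → sj s0 (t + 1) ≤ amp w0 s0 (t + 1) φ ∧ amp w0 s0 (t + 1) φ ≤ amp w0 s0 (T + 1) φ) ∧
  ∀ j φ : ℕ, φ < 2 ^ w0 → amp w0 s0 (j + 2) φ + 2 ≤ sj s0 j + sj s0 j / 4 * 3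

/-- **GPH** (medium). All gaps from the history. uses: SJM, DRF (and the hypotheses are the conclusions of PERT, GALL).
Proof. Let `s0 ≤ s ≤ sj (T+1)`. For `φ < 2^w0` let `t ≤ T` be the largest with `amp t φ + w0 ≤ s` (`amp 0 φ + w0 = s0`). If `t = T`, FG holds for `cs T`. If `t < T` then `s < amp (t+1) φ + w0 ≤ sj (t+1) + 3 w0 2^w0` so FG holds for `cs t`; if moreover `s + 2 w0 ≤ amp (t+1) φ`: PERT with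
`η = 4/2^(2 w0)` (DRF: `|cs T - cs t| ≤ 4/2^(amp (t+1) φ) ≤ η/2^s`) gives FG for `cs T` with `KB/2^w0 + KP 2/2^w0`. Otherwise `amp (t+1) φ` is in the open interval `(s - w0, s + 2 w0)`; the numbers `sj t' + 3 w0 φ'`, `t' ≥ 1`, `φ' < 2^w0` are pairwise at distance `≥ 3 w0`
(`sj (t'+1) - sj t' ≥ s0/4 ≥ 3 w0 2^w0 + 3 w0`), so this happens for at most one `φ`. GALL (`4^w0 ≤ q` because `2^w0 ≤ ρ^2`; if there is no exceptional `φ` take `φ0 = 0`). -/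
def GPH_stmt : Prop := ∀ KB KP KG : ℝ, 1 ≤ KB → 1 ≤ KP → 1 ≤ KG →
  (∀ (q m φ : ℕ) (c c' : ℕ → DD) (s : ℕ) (lam η : ℝ), (∀ i < q, Sz (c i) (1 / 100) ∧ Sz (c' i) (1 / 100)) → 0 ≤ lam → 0 ≤ η → η ≤ 1 →
    (∀ i < q, i % m = φ → ∀ x, |ev (c' i) x - ev (c i) x| ≤ η / 2 ^ s) → FG q m φ c s lam → FG q m φ c' s (lam + KP * √η)) →
  (∀ (q w0 : ℕ) (c : ℕ → DD) (s : ℕ) (lam : ℝ), 4 ^ w0 ≤ q → (∀ i < q, Sz (c i) (1 / 100)) → 0 ≤ lam →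
    (∃ φ0 : ℕ, ∀ φ < 2 ^ w0, φ ≠ φ0 → FG q (2 ^ w0) φ c s lam) → GAP q c s (KG * (lam + 1 / 2 ^ w0))) →
  ∀ (th δ : ℝ) (m0 w0 ρ T : ℕ) (cs : ℕ → ℕ → DD), 2 ≤ w0 → δ ≤ 1 / 100 → NB 1 w0 (ρ ^ 4) (ρ ^ 2) → HIS KB th δ m0 w0 ρ T cs →
  ∀ s, ρ ^ 2 ≤ s → s ≤ sj (ρ ^ 2) (T + 1) → GAP (ρ ^ 4) (cs T) s (KG * (KB + 2 * KP + 1) / 2 ^ w0)

/-- **SPH** (short/medium). The sparsity hypothesis of BAT from the history. uses: SJM.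
Proof. `k = 0`: `E` is empty. `k ≥ 1`: `r ≥ 2 ρ^3 ≥ sj 1`; let `t'` be the largest with `sj (t'+1) ≤ r`; `t' ≤ T` because `r ≤ sj (T+1)/4`; `r < sj (t'+2) ≤ (5/4) sj (t'+1)`, so `k ρ^3 ≤ r/2 ≤ sj (t'+1)`. An edge of `c` at the precision `4/2^r ≤ 4/2^(sj (t'+1))` is an edge of `cs t'` at the precision `8/2^(sj (t'+1))`
because `|c - cs t'| ≤ 4/2^(sj (t'+1))` (the labels of the edges are `< q`). -/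
def SPH_stmt : Prop := ∀ (th : ℝ) (w0 ρ T : ℕ) (cs : ℕ → ℕ → DD) (c : ℕ → DD), NB 1 w0 (ρ ^ 4) (ρ ^ 2) → 0 ≤ th →
  (∀ t ≤ T, ∀ k : ℕ, k * ρ ^ 3 ≤ sj (ρ ^ 2) (t + 1) → SPR (ρ ^ 4) (cs t) (sj (ρ ^ 2) (t + 1)) k th 8) →
  (∀ t ≤ T, ∀ i < ρ ^ 4, ∀ x, |ev (c i) x - ev (cs t i) x| ≤ 4 / 2 ^ sj (ρ ^ 2) (t + 1)) →
  ∀ r k : ℕ, r ≤ bu w0 (ρ ^ 2) (T + 1) → 2 * k * ρ ^ 3 ≤ r → SPR (ρ ^ 4) c r k th 4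

/-- **SP0** (short). The sparsity hypothesis for the first batch is void. uses: nothing.
Proof. `r ≤ (ρ^2 - w0)/4` and `2 k ρ^3 ≤ r` give `k = 0`, then `E` is empty. -/
def SP0_stmt : Prop := ∀ (th : ℝ) (w0 ρ : ℕ) (c : ℕ → DD), 1 ≤ ρ → 0 ≤ th → ∀ r k : ℕ, r ≤ bu w0 (ρ ^ 2) 0 → 2 * k * ρ ^ 3 ≤ r → SPR (ρ ^ 4) c r k th 4

/-! ## The digits as functions, uniqueness of `Q`, `R` -/

/-- **WDB** (medium). Bounds of the shift. uses: nothing.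
Proof. `β`, `β'`, `β''`, `β'''` are continuous with compact support, so bounded by some `K/3`; for every `x` at most three `l` have `β (2^u x - l) ≠ 0` (or the derivatives `≠ 0`), `ω l / N ≤ 1`. `deriv^k (β (2^u x - l)) = 2^(uk) β^(k)(…)`. Support: `l ≥ 2^(u-3) + 2` and `2^u x - l > -1` give `x > (2^(u-3) + 1)/2^u ≥ 1/8`;
similarly on the right (`u ≥ 3`). `|Wd| ≤ 3 τ` because `0 ≤ β ≤ 1`. -/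
def WDB_stmt : Prop := ∀ β : ℝ → ℝ, BUMP β → ∃ K : ℝ, 1 ≤ K ∧ ∀ (u N : ℕ) (τ : ℝ) (ω : ℕ → ℕ), 10 ≤ u → 1 ≤ N → 0 ≤ τ → (∀ l, ω l < N) →
  ContDiff ℝ 3 (Wd β u N τ ω) ∧ (∀ x, x ∉ Set.Icc (1 / 8 : ℝ) (7 / 8) → Wd β u N τ ω x = 0) ∧
  ∀ x, |Wd β u N τ ω x| ≤ 3 * τ ∧ |deriv (Wd β u N τ ω) x| ≤ K * τ * 2 ^ u ∧ |d2 (Wd β u N τ ω) x| ≤ K * τ * 2 ^ (2 * u) ∧
    |deriv (d2 (Wd β u N τ ω)) x| ≤ K * τ * 2 ^ (3 * u)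

/-- **QRU** (short). uses: nothing. Proof. `ev_ext`; `R i = …` by downward induction from `R q = 1`; `IsQ` for `q` gives `Q q = 1` (empty sum). -/
def QRU_stmt : Prop := ∀ (q : ℕ) (Y : ℕ → ℝ → ℝ) (G Q Q' R R' : ℕ → DD), IsQ q Y Q → IsQ q Y Q' → IsR q G Q R → IsR q G Q' R' →
  ∀ i ≤ q, Q i = Q' i ∧ R i = R' i

/-- **BPE** (short). A bump exists. Proof. `ContDiffBump` with centre `1/2`, radii `1/2`, `3/2` (it is one on the closed ball of radius `rIn`, support = open ball of radius `rOut`). -/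
def BPE_stmt : Prop := ∃ β : ℝ → ℝ, BUMP β

/-- **KRE** (short). A kernel exists. Proof. `ContDiffBump.normed` with centre `0`, radii `1/2`, `1` (`ContDiffBump.integral_normed`; even: the bump at `0` satisfies `ContDiffBump.sub`/`neg`; or symmetrise). -/
def KRE_stmt : Prop := ∃ κ : ℝ → ℝ, KER κ

/-- **ESI** (short/medium). uses: nothing. Proof. On the cell `k` of level `s`: `f = a + b x`, `∫ f = (a + b mid) 2^-s`, `∫ (t - mid) f = b 2^(-3s)/12`. -/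
def ESI_stmt : Prop := ∀ (s : ℕ) (f : ℝ → ℝ), PA s f → ∀ x, Es s f x = f x

/-! ## The state -/

/-- The data at the beginning of a block. -/
structure ST where
  cs : ℕ → ℕ → DD
  cm : ℕ → ℕ → DD
  D : RD
  Y : ℕ → ℝ → ℝ
  Q : ℕ → DD
  G : ℕ → DD
  R : ℕ → DD

/-- The constants and the function of a stage. -/
structure SP where
  κ : ℝ → ℝ
  KB : ℝ
  th : ℝ
  δ : ℝ
  B0 : ℝ
  A : ℝ
  m0 : ℕ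
  w0 : ℕ
  ac : ℕ
  ρ : ℕ
  y : ℝ → ℝ

/-- The parameters of the routing. -/
noncomputable def SP.rp (a : SP) (cm : ℕ → ℕ → DD) : RQ := rPP (a.ρ ^ 4) (a.ρ ^ 2) a.w0 a.ac cm a.y

/-- The routed function of the label `i`, levels below `sj j`. -/
noncomputable def vr (a : SP) (cm : ℕ → ℕ → DD) (D : RD) (j i : ℕ) : ℝ → ℝ :=
  vf (a.ρ ^ 4) (a.ρ ^ 2) (sj (a.ρ ^ 2) j) (fun s k => rwt (a.rp cm) D s i k) a.y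

/-- The flow functions of the block `j` (flows of the levels below `sj j`). -/
noncomputable def YF (a : SP) (cm : ℕ → ℕ → DD) (D : RD) (j i : ℕ) : ℝ → ℝ :=
  if j = 0 then 0 else A2 (fun x => a.A * mol a.κ (1 / 2 ^ (sj (a.ρ ^ 2) j + sj (a.ρ ^ 2) j / 8)) (vr a cm D j i) x)

/-- The weights of the label `i` below `sj j` are admissible. -/
def WHa (a : SP) (cm : ℕ → ℕ → DD) (D : RD) (j i : ℕ) : Prop := WH (a.ρ ^ 4) (a.ρ ^ 2) (sj (a.ρ ^ 2) j) a.B0 (fun s k => rwt (a.rp cm) D s i k) a.y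

/-- The flow hypotheses of the block `j`. -/
def FLa (a : SP) (j : ℕ) (Y : ℕ → ℝ → ℝ) : Prop := FLW (a.ρ ^ 4) Y (a.A * a.B0) (1 / (a.ρ : ℝ) ^ 8) (2 ^ (sj (a.ρ ^ 2) j + sj (a.ρ ^ 2) j / 8))

/-- The conjugators after the batch `T`, Lipschitz exponents of the block `j`. -/
def GLa (a : SP) (T j : ℕ) (G : ℕ → DD) : Prop := ∀ i < a.ρ ^ 4, Sz (G i) (gam (a.ρ ^ 2) T) ∧ Lp (G i) (2 ^ (sj (a.ρ ^ 2) j + sj (a.ρ ^ 2) j / 6))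

/-- The maps, flows and conjugators after the batch `T`, with Lipschitz exponents given by the block `j`. -/
def MST (a : SP) (T j : ℕ) (cs : ℕ → ℕ → DD) (Y : ℕ → ℝ → ℝ) (Q G R : ℕ → DD) : Prop :=
  IsQ (a.ρ ^ 4) Y Q ∧ IsR (a.ρ ^ 4) G Q R ∧ (∀ i < a.ρ ^ 4, cs T i = Cm G Q R i) ∧ HIS a.KB a.th a.δ a.m0 a.w0 a.ρ T cs ∧ FLa a j Y ∧ GLa a T j G

/-- The data agree below the level `S`. -/
def AGR (S : ℕ) (cm cm' : ℕ → ℕ → DD) (D D' : RD) : Prop := ∀ s < S, cm s = cm' s ∧ D.H s = D'.H s ∧ D.K s = D'.K s ∧ D.G s = D'.G s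

/-- The invariant at the beginning of the block `j` (after the batch `j+1`, with the flows of the levels below `sj j`). -/
def INV (a : SP) (j : ℕ) (x : ST) : Prop := MST a (j + 1) j x.cs x.Y x.Q x.G x.R ∧ (∀ i < a.ρ ^ 4, x.Y i = YF a x.cm x.D j i) ∧
  ROK (a.rp x.cm) x.D (sj (a.ρ ^ 2) j) ∧ (∀ j' < j, ∀ s, sj (a.ρ ^ 2) j' ≤ s → s < sj (a.ρ ^ 2) (j' + 1) → x.cm s = x.cs (j' + 1)) ∧
  (0 < j → ∀ i < a.ρ ^ 4, WHa a x.cm x.D j i)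

/-- The constants are compatible. `C` is a large absolute constant. -/
def SPok (C : ℕ) (a : SP) : Prop := KER a.κ ∧ 1 ≤ a.KB ∧ 0 < a.th ∧ 0 < a.δ ∧ a.δ ≤ 1 / 1000 ∧ 1 ≤ a.B0 ∧ 0 < a.A ∧ 2 ≤ a.w0 ∧
  a.ac * LL a.w0 ≤ a.w0 ∧ NB (C + a.ac + 1) a.w0 (a.ρ ^ 4) (a.ρ ^ 2) ∧ C * (a.A * a.B0 + 1 / a.ρ) ≤ a.δ

/-- **SPM** (short). Monotonicity. uses: nothing. Proof. Unfold; `HY` is monotone in `δ` (`Sz` is monotone). -/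
def SPM_stmt : Prop := (∀ (C C' : ℕ) (a : SP), C ≤ C' → SPok C' a → SPok C a) ∧
  (∀ (K0 : ℝ) (m0 w0 a : ℕ) (δ δ' B0 : ℝ) (q s0 : ℕ), δ ≤ δ' → ROUc K0 m0 w0 a δ' B0 q s0 → ROUc K0 m0 w0 a δ B0 q s0) ∧
  ∀ (KB th δ : ℝ) (m0 w0 ρ T T' : ℕ) (cs : ℕ → ℕ → DD), T' ≤ T → HIS KB th δ m0 w0 ρ T cs → HIS KB th δ m0 w0 ρ T' cs

/-! ## Digits -/

/-- **DGS** (LONG). One batch of digits `t`. uses: SJM, WDB, QRU, BDD, DST, `Pool.Agent.helper64.D2.DIF_stmt` (existence of a diffeomorphism from its displacement; proved in `Pool/Agent/helper57/D2/DIF.lean`; take it as a hypothesis `hDIF : Pool.Agent.helper64.D2.DIF_stmt`).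
Proof. `u = bu t`, `τ_i = 1/2^amp t (i % 2^w0) ≤ τ = 1/2^(amp t 0)`, `u ≤ (amp t 0)/4`. Let `P i = (Q (i+1))⁻¹`, `E i = G i * R (i+1)` for `i < q`, `P i = E i = 1` for `i ≥ q`; BDD (with QRU) gives the sizes `K (ε + q γ) ≤ K (ε + 1/ρ) ≤ δ ≤ 1/1000` (`q γ ≤ 4 q/2^(s0/16) ≤ 1/(2ρ)`, NB), so `BATc` gives `ω`.
`W_i = Wd …`; WDB: `τ1 = K τ 2^u`, `τ2 = K τ 2^(2u) ≤ K/2^(amp t 0/2)`, third derivative `≤ K τ 2^(3u) ≤ 1`, `τ0 = 3 τ`. The numerical hypothesis gives `τ (Lam + L) ≤ 1/2^(sj t/16 + s0/100)`, hence `K q^4 (τ2 + τ1 + τ0 (Lam + L)) ≤ 1` and `K q^3 (…) ≤ 1/2^(sj t/16)` (NB: `K q^10 ≤ 2^(s0/1000)`). DST gives `G'`, `R'`.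
`c i = Cm G' Q R' i` for `i < q`; for `i ≥ q` take `c i` with `ev (c i) x = x + W_i x` from DIF. Then `ev (c i) x = P_i (E_i x + W_i x)` for all `i`, so the three conclusions of `BATc` are `BPR`. Size of `Cm G' Q R'`: BDD (QRU) for `G'`: `K (ε + q (γ + 1/2^(sj t/16))) ≤ δ`. Displacement: `|P_i (E_i + W_i) - P_i E_i| ≤ (1 + 1/1000) 3 τ_i`
(`|P_i'| ≤ 1 + 1/1000` because `P_i' - 1` vanishes outside `(0,1)` and `|P_i''| ≤ 1/1000`). -/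
def DGS_stmt : Prop := ∀ β : ℝ → ℝ, BUMP β → ∃ C : ℕ, ∀ (KB th δ : ℝ) (m0 w0 ρ : ℕ), BATc β KB m0 w0 th ρ → NB C w0 (ρ ^ 4) (ρ ^ 2) → δ ≤ 1 / 1000 →
  ∀ (t : ℕ) (Y : ℕ → ℝ → ℝ) (G Q R : ℕ → DD) (ε L γ Lam : ℝ), IsQ (ρ ^ 4) Y Q → IsR (ρ ^ 4) G Q R → FLW (ρ ^ 4) Y ε (1 / (ρ : ℝ) ^ 8) L → 0 ≤ ε → 0 ≤ γ → 1 ≤ L → 1 ≤ Lam →
  C * (ε + 1 / ρ) ≤ δ → γ ≤ 2 / 2 ^ (ρ ^ 2 / 16) → (Lam + L) * 2 ^ (sj (ρ ^ 2) t / 16 + ρ ^ 2 / 100) ≤ 2 ^ amp w0 (ρ ^ 2) t 0 →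
  (∀ i < ρ ^ 4, Sz (G i) γ ∧ Lp (G i) Lam) → (∀ r k : ℕ, r ≤ bu w0 (ρ ^ 2) t → 2 * k * ρ ^ 3 ≤ r → SPR (ρ ^ 4) (Cm G Q R) r k th 4) →
  ∃ c G' R' : ℕ → DD, IsR (ρ ^ 4) G' Q R' ∧ (∀ i < ρ ^ 4, c i = Cm G' Q R' i) ∧ BPR KB th m0 w0 ρ t c ∧
    ∀ i < ρ ^ 4, Sz (G' i) (γ + 1 / 2 ^ (sj (ρ ^ 2) t / 16)) ∧ Lp (G' i) (C * (ρ ^ 4) ^ 2 * (Lam + L)) ∧ Sz (c i) δ ∧
      ∀ x, |ev (c i) x - ev (Cm G Q R i) x| ≤ (13 / 4) / 2 ^ amp w0 (ρ ^ 2) t (i % 2 ^ w0)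

/-- The conclusion of BTS. -/
def BTSc (a : SP) : Prop := ∀ (j : ℕ) (cs : ℕ → ℕ → DD) (Y : ℕ → ℝ → ℝ) (Q G R : ℕ → DD), IsQ (a.ρ ^ 4) Y Q → IsR (a.ρ ^ 4) G Q R →
  HIS a.KB a.th a.δ a.m0 a.w0 a.ρ (j + 1) cs → FLa a (j + 1) Y → GLa a (j + 1) j G →
  (∀ i < a.ρ ^ 4, ∀ x, |ev (Cm G Q R i) x - ev (cs (j + 1) i) x| ≤ 1 / 2 ^ (sj (a.ρ ^ 2) j + sj (a.ρ ^ 2) j / 4 * 3)) →
  ∃ (cs' : ℕ → ℕ → DD) (G' R' : ℕ → DD), (∀ t ≤ j + 1, cs' t = cs t) ∧ MST a (j + 2) (j + 1) cs' Y Q G' R'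

/-- **BTS** (medium/LONG). The batch `j + 2`. uses: SJM, DRF, SPH, DGS.
Proof. Closeness of `c = Cm G Q R` to `cs t`, `t ≤ j + 1`: `drf t (j+1) + e`, `e = 1/2^(sj j + 3 (sj j/4)) ≤ (1/4)/2^(amp (j+2) φ)` (DRF); for `t ≤ j` at most `(15/4 + 1/4)/2^(amp (t+1) φ) ≤ 4/2^(sj (t+1))`; for `t = j + 1` it is `e`. SPH (with `T = j + 1`) gives the sparsity hypothesis. DGS for the batch `t = j + 2`, `ε = A B0`,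
`L = 2^(sj (j+1) + sj (j+1)/8)`, `γ = gam (j+1)`, `Lam = 2^(sj j + sj j/6)`. Numerical hypothesis: `Lam ≤ L`, `amp (j+2) 0 = sj (j+2) ≥ (5/4) sj (j+1) - 1`, `(15/16) sj (j+2) ≥ 1.1718 sj (j+1) - 1 ≥ 1.125 sj (j+1) + 1 + s0/100`. `cs' = cs` with `cs' (j+2) = c`. Drift: `|cs' (j+2) - cs t| ≤ (13/4)/2^amp + e + drf t (j+1) ≤ drf t (j+2)`;
displacement: the drift from `cs 0` and the displacement of `cs 0` (`t = 0`: `drf 0 0 = 0`). New Lipschitz constant: `C q^2 (Lam + L) ≤ 2^(sj (j+1) + sj (j+1)/6)` (`sj (j+1)/6 - sj (j+1)/8 ≥ sj (j+1)/24 - 1`). -/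
def BTS_stmt : Prop := ∀ β : ℝ → ℝ, BUMP β → ∃ C : ℕ, ∀ (a : SP), SPok C a → BATc β a.KB a.m0 a.w0 a.th a.ρ → BTSc a

/-- **INI** (medium/LONG). The initial state: two batches without flows. uses: SJM, DRF, SP0, SPH, DGS, RST.
Proof. `Y = 0`, `Q = 1`, `G = 1`, `R = 1` (IsQ, IsR, FLW clear; `Lp 1 _`, `Sz 1 0`). Batch `0`: DGS with `L = Lam = 1`, `γ = 0`, SP0; numerical hypothesis `2 · 2^(s0/16 + s0/100) ≤ 2^(s0-w0)`. Batch `1`: DGS with `t = 1`, `L = 1`, `Lam = 2 C q^2`, `γ = gam 0 = 1/2^(sj 0/16)`, SPH with `T = 0`.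
History with `cs 0`, `cs 1`: displacement of `cs 0` at most `(13/4)/2^(s0-w0)` (`Cm 1 1 1 i = 1`), `|cs 1 - cs 0| ≤ (13/4)/2^(amp 1 φ) ≤ drf 0 1`. `C q^2 (2 C q^2 + 1) ≤ 2^(s0 + s0/6)`. `cm = fun _ _ => 1`, `D = ⟨fun _ => ∅, fun _ => ∅, fun _ _ => ∅⟩`; `ROK … (sj 0)` is RST; `YF a cm D 0 i = 0`. -/
def INI_stmt : Prop := ∀ β : ℝ → ℝ, BUMP β → ∃ C : ℕ, ∀ (a : SP), SPok C a → BATc β a.KB a.m0 a.w0 a.th a.ρ →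
  ∃ x : ST, INV a 0 x

/-! ## Routing over a block -/

/-- All gaps (conclusion of GPH). -/
def GPc (K0 : ℝ) (a : SP) : Prop := ∀ (T : ℕ) (cs : ℕ → ℕ → DD), HIS a.KB a.th a.δ a.m0 a.w0 a.ρ T cs → ∀ s, a.ρ ^ 2 ≤ s → s ≤ sj (a.ρ ^ 2) (T + 1) →
    GAP (a.ρ ^ 4) (cs T) s (K0 / 2 ^ a.w0)

/-- **HYV** (medium). The hypotheses of the routing. uses: SJM, DRF, SPM.
Proof. `σ s = sj (j'+1) + sj (j'+1)/8` for `sj j' ≤ s < sj (j'+1)` (`j'` = the block of `s`, `Nat.find` of `s < sj (j'+1)`; monotone in `s`). For `s0 ≤ s ≤ S` in the block `j' ≤ j` the maps are `cs (j'+1)`: NI: `Sz … δ`, displacement `≤ 4/2^(s0-w0) ≤ 2^(w0+3)/2^s0` (DRF); `s + 1 + (s+1)/8 ≤ σ s` since `s + 1 ≤ sj (j'+1)`;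
SLV at `(s+1, σ s)` from SLV at `(sj (j'+1), σ s)` because the grid of level `s+1 ≤ sj (j'+1)` is contained in the grid of level `sj (j'+1)` (`near ⊆ near`); GAP for `s' ≤ s + w0 + ac ≤ sj (j'+2)` by `GPc` for the history truncated at `T = j'+1` (SPM); closeness: same block: equality; otherwise
`|cs (j''+1) - cs (j'+1)| ≤ 4/2^(amp (j'+2) φ) ≤ 4/2^(sj (j'+2)) ≤ 1/2^(σ s + 2)`, `sj (j'+2) = sj (j'+1) + sj (j'+1)/4`. -/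
def HYV_stmt : Prop := ∀ (K0 : ℝ) (a : SP), SPok 1 a → GPc K0 a →
  ∀ (j : ℕ) (cs cm : ℕ → ℕ → DD), HIS a.KB a.th a.δ a.m0 a.w0 a.ρ (j + 1) cs →
  (∀ j' ≤ j, ∀ s, sj (a.ρ ^ 2) j' ≤ s → s < sj (a.ρ ^ 2) (j' + 1) → cm s = cs (j' + 1)) →
  ∃ σ : ℕ → ℕ, (∀ s, sj (a.ρ ^ 2) j ≤ s → s < sj (a.ρ ^ 2) (j + 1) → σ s = sj (a.ρ ^ 2) (j + 1) + sj (a.ρ ^ 2) (j + 1) / 8) ∧
    ∀ S, a.ρ ^ 2 ≤ S → S < sj (a.ρ ^ 2) (j + 1) → HY K0 a.w0 a.ac (a.ρ ^ 4) (a.ρ ^ 2) S a.m0 cm σ a.δ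

/-- The result of the routing of the block `j`. -/
def RTR (a : SP) (j : ℕ) (x : ST) (cm' : ℕ → ℕ → DD) (D' : RD) : Prop := AGR (sj (a.ρ ^ 2) j) x.cm cm' x.D D' ∧ (∀ s, sj (a.ρ ^ 2) j ≤ s → cm' s = x.cs (j + 1)) ∧
  ROK (a.rp cm') D' (sj (a.ρ ^ 2) (j + 1)) ∧ (∀ i < a.ρ ^ 4, WHa a cm' D' (j + 1) i) ∧
  (∀ z, ∑ i ∈ Finset.range (a.ρ ^ 4), vr a cm' D' (j + 1) i z = Es (sj (a.ρ ^ 2) (j + 1)) a.y z) ∧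
  ∀ c : ℕ → DD, (∀ i < a.ρ ^ 4, ∀ z, |ev (c i) z - ev (x.cs (j + 1) i) z| ≤ 1 / 2 ^ (sj (a.ρ ^ 2) (j + 1) + sj (a.ρ ^ 2) (j + 1) / 8 + 2)) →
    ∀ t : ℕ → ℝ, (∀ i, |t i| ≤ 1 / 2 ^ (sj (a.ρ ^ 2) (j + 1) + sj (a.ρ ^ 2) (j + 1) / 8 + 2)) → ∀ z,
    |∑ i ∈ Finset.range (a.ρ ^ 4), (vr a cm' D' (j + 1) i (ev (c i) z + t i) - Es (a.ρ ^ 2) a.y (ev (c i) z + t i) / ((a.ρ ^ 4 : ℕ) : ℝ))| ≤ 1 / 32

/-- The conclusion of RTB. -/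
def RTBc (a : SP) (N : ℕ) : Prop := ∀ (j : ℕ) (x : ST), INV a j x → sj (a.ρ ^ 2) (j + 1) ≤ N → ∃ (cm' : ℕ → ℕ → DD) (D' : RD), RTR a j x cm' D'

/-- **RTB** (medium/LONG). Routing over a block. uses: SJM, HYV, RLC.
Proof. `cm' s = x.cm s` for `s < sj j`, `x.cs (j+1)` for `s ≥ sj j`. HYV for `cs = x.cs`, `cm = cm'` (the blocks `j' < j` by INV). By induction on `S` from `sj j` to `sj (j+1)`: there is `D'` with `AGR (sj j) x.cm cm' x.D D'` and `ROK (rp cm') D' S`; start: RLC (INV for `x.cm`, `x.D`); step: first part of `ROUc` (`S < sj (j+1) ≤ N`).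
Then the second part of `ROUc` for `S + 1 = sj (j+1)`. `Σ_i vr_i z = Es s0 y z + Σ_s (Σ_i rwt …) Ds s y z = Es (sj (j+1)) y z` (sum of the weights is `1`, telescoping). -/
def RTB_stmt : Prop := ∀ (K0 : ℝ) (a : SP), SPok 1 a → GPc K0 a → ROUc K0 a.m0 a.w0 a.ac a.δ a.B0 (a.ρ ^ 4) (a.ρ ^ 2) →
  ∀ (N : ℕ) (p p' : ℝ), YH N (a.ρ ^ 2) p p' a.y → RTBc a N

/-! ## The flow step -/

/-- The conclusion of FLS. -/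
def FLSc (a : SP) (N : ℕ) : Prop := ∀ (j : ℕ) (cm cm' : ℕ → ℕ → DD) (D D' : RD) (Y : ℕ → ℝ → ℝ) (G Q R : ℕ → DD), sj (a.ρ ^ 2) (j + 1) ≤ N →
  IsQ (a.ρ ^ 4) Y Q → IsR (a.ρ ^ 4) G Q R → FLa a j Y → (∀ i < a.ρ ^ 4, Sz (G i) (gam (a.ρ ^ 2) (j + 1))) → (∀ i < a.ρ ^ 4, Y i = YF a cm D j i) →
  AGR (sj (a.ρ ^ 2) j) cm cm' D D' → (0 < j → ∀ i < a.ρ ^ 4, WHa a cm D j i) → (∀ i < a.ρ ^ 4, WHa a cm' D' (j + 1) i) →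
  (∃ Q' R' : ℕ → DD, IsQ (a.ρ ^ 4) (fun i => YF a cm' D' (j + 1) i) Q' ∧ IsR (a.ρ ^ 4) G Q' R' ∧ FLa a (j + 1) (fun i => YF a cm' D' (j + 1) i) ∧
    ∀ i < a.ρ ^ 4, ∀ x, |ev (Cm G Q' R' i) x - ev (Cm G Q R i) x| ≤ 1 / 2 ^ (sj (a.ρ ^ 2) j + sj (a.ρ ^ 2) j / 4 * 3)) ∧
  (0 < j → ∀ h : ℝ, 0 < h → h ≤ 1 / 2 ^ (2 * sj (a.ρ ^ 2) (j + 1)) → ∀ i < a.ρ ^ 4, ∀ x,
    |Y i x - A2 (fun x => a.A * mol a.κ h (vr a cm' D' (j + 1) i) x) x| ≤ 1 / (((a.ρ ^ 4 : ℕ) : ℝ) ^ 2 * 2 ^ (sj (a.ρ ^ 2) (j + 1) + sj (a.ρ ^ 2) (j + 1) / 8 + 2)))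

/-- **FLS** (medium/LONG). The flow step. uses: SJM, DRF, RLC, BDD, FST, YGEN.
Proof. `Y' i = YF a cm' D' (j+1) i = A2 (A mol κ h' (vr a cm' D' (j+1) i))`, `h' = 1/2^(sj (j+1) + sj (j+1)/8)`. YGEN (first part, `S = sj (j+1)`): FLW with `ε = A B0`: `|Y''| ≤ A B0/q`, `|Y'| , |Y| ≤ K A B0/(q 2^s0) ≤ 1/ρ^8` (NB; `C A B0 ≤ 1`), Lipschitz constant `K A B0/(q h') ≤ 2^(sj (j+1) + sj (j+1)/8)` (`K ≤ q`), support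
`[p - 4/2^s0, p' + 4/2^s0] ⊆ [1/5,4/5]`. BDD gives `Q'`, `R'` (`K (ε + q gam) ≤ 1`). Difference `e`: for `j = 0`: `Y = 0`, `|Y'| ≤ K A B0/(q 2^(2 s0))`; for `j ≥ 1`: YGEN (second part, `S = sj j`, `S' = sj (j+1)`, `h = 1/2^(sj j + sj j/8)`, weights equal below `sj j` by RLC): `e = 2 K A B0/(q 2^(2 sj j))`. FST (`FLW` for `Y` with the larger `L`):
`K q e ≤ 2 K^2 A B0/2^(2 sj j) ≤ 1/2^(sj j + 3 (sj j/4))` since `2 K^2 ≤ 2^(sj j/4)`. Second conclusion: YGEN (second part) with `h' = h`: `2 K A B0/(q 2^(2 sj j)) ≤ 1/(q^2 2^(sj (j+1) + sj (j+1)/8 + 2))` since `(9/8)(5/4) = 1.40625 < 2`. -/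
def FLS_stmt : Prop := ∀ κ : ℝ → ℝ, KER κ → ∃ C : ℕ, ∀ (a : SP), a.κ = κ → SPok C a →
  ∀ (N : ℕ) (p p' : ℝ), YH N (a.ρ ^ 2) p p' a.y → FLSc a N

/-! ## The induction and the end -/

/-- **IST** (medium). The step. uses: SJM.
Proof. `RTBc` gives `cm'`, `D'`; `FLSc` (for `x.cm, cm', x.D, D', x.Y, x.G, x.Q, x.R`) gives `Q'`, `R'`; `x.cs (j+1) i = Cm x.G x.Q x.R i`; `BTSc` for `Y' = fun i => YF a cm' D' (j+1) i`, `Q'`, `x.G`, `R'` gives `cs'`, `G'`, `R''`. New state `⟨cs', cm', D', Y', Q', G', R''⟩`. -/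
def IST_stmt : Prop := ∀ (a : SP) (N : ℕ), 1000 ≤ a.ρ ^ 2 → RTBc a N → FLSc a N → BTSc a → ∀ (j : ℕ) (x : ST), INV a j x → sj (a.ρ ^ 2) (j + 1) ≤ N → ∃ x' : ST, INV a (j + 1) x'

/-- **END** (medium). From the last block to FIN. uses: SJM, DRF, ESI.
Proof. `J = j + 1 ≥ 2`, `N = sj J`; `RTBc` for the block `j` gives `cm'`, `D'` with `RTR`. FIN with `σ = sj J + sj J/8 + 2`, `w i = fun s k => rwt (a.rp cm') D' s i k`, `Gc = x.G`, `Qc = x.Q`, `Rc = x.R`, `Yc = x.Y`, `L = 2^(sj j + sj j/8)`; `Σ_i vf = Es N y = y` (ESI, `y` is `PA N`); `Sz (x.G i) (gam …) ≤ 1/(q 2^(3n))` by the numerical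
hypothesis; `FLa` is FLW with `1/ρ^8 = 1/q^2`; the closeness of the flows is the second conclusion of `FLSc`; loads: `RTR`. `qn n = ρ^4`, `s0n n = ρ^2` by definition of `rn`. -/
def END_stmt : Prop := ∀ (κ : ℝ → ℝ) (B : ℝ) (n0 : ℕ), KER κ →
  (∀ n : ℕ, n0 ≤ n → ∀ (c : ℕ) (G0 : DD) (Z y : ℝ → ℝ) (p p' : ℝ) (N σ : ℕ) (w : ℕ → ℕ → ℤ → ℝ)
    (Gc Qc Rc : ℕ → DD) (Yc : ℕ → ℝ → ℝ) (L : ℝ), MH n c G0 Z p p' → s0n n ≤ N → N ≤ σ →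
    y = Es N (fun x => d2 Z x / (5 / 2 ^ n)) → YH N (s0n n) (p - 1 / 2 ^ s0n n) (p' + 1 / 2 ^ s0n n) y → (∀ x, |y x - d2 Z x / (5 / 2 ^ n)| ≤ 1 / 2 ^ (2 * n)) →
    (∀ x, |Es (s0n n) y x| ≤ 1 / 1000) → (∀ x x', |x - x'| ≤ 1 / 2 ^ N → |d2 Z x - d2 Z x'| ≤ (5 / 2 ^ n) / 2 ^ (2 * n)) →
    (∀ i < qn n, WH (qn n) (s0n n) N B (w i) y) → (∀ x, ∑ i ∈ Finset.range (qn n), vf (qn n) (s0n n) N (w i) y x = y x) →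
    (∀ i < qn n, Sz (Gc i) (1 / ((qn n : ℝ) * 2 ^ (3 * n)))) → IsQ (qn n) Yc Qc → IsR (qn n) Gc Qc Rc → FLW (qn n) Yc ((5 / 2 ^ n) * B) (1 / (qn n : ℝ) ^ 2) L →
    (∀ h : ℝ, 0 < h → h ≤ 1 / 2 ^ (2 * N) → ∀ i < qn n, ∀ x,
      |Yc i x - A2 (fun x => (5 / 2 ^ n) * mol κ h (vf (qn n) (s0n n) N (w i) y) x) x| ≤ 1 / ((qn n : ℝ) ^ 2 * 2 ^ σ)) →
    (∀ cc : ℕ → DD, (∀ i < qn n, ∀ x, |ev (cc i) x - ev (Cm Gc Qc Rc i) x| ≤ 1 / 2 ^ σ) → ∀ t : ℕ → ℝ, (∀ i, |t i| ≤ 1 / 2 ^ σ) → ∀ x,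
      |∑ i ∈ Finset.range (qn n), (vf (qn n) (s0n n) N (w i) y (ev (cc i) x + t i) - Es (s0n n) y (ev (cc i) x + t i) / (qn n))| ≤ 1 / 32) →
    MC n G0 p p') →
  ∀ (n c : ℕ) (a : SP), n0 ≤ n → a.κ = κ → a.B0 = B → a.A = 5 / 2 ^ n → a.ρ = rn n → SPok 1 a →
  2 * (rn n : ℝ) ^ 4 * 2 ^ (3 * n) ≤ 2 ^ (rn n ^ 2 / 16) →
  ∀ (G0 : DD) (Z : ℝ → ℝ) (p p' : ℝ) (j : ℕ) (x : ST), 0 < j → MH n c G0 Z p p' → a.y = Es (sj (a.ρ ^ 2) (j + 1)) (fun x => d2 Z x / (5 / 2 ^ n)) →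
  YH (sj (a.ρ ^ 2) (j + 1)) (s0n n) (p - 1 / 2 ^ s0n n) (p' + 1 / 2 ^ s0n n) a.y → (∀ x, |a.y x - d2 Z x / (5 / 2 ^ n)| ≤ 1 / 2 ^ (2 * n)) →
  (∀ x, |Es (s0n n) a.y x| ≤ 1 / 1000) → (∀ x x', |x - x'| ≤ 1 / 2 ^ (sj (a.ρ ^ 2) (j + 1)) → |d2 Z x - d2 Z x'| ≤ (5 / 2 ^ n) / 2 ^ (2 * n)) →
  INV a j x → RTBc a (sj (a.ρ ^ 2) (j + 1)) → FLSc a (sj (a.ρ ^ 2) (j + 1)) → MC n G0 p p'

/-- **NNM** (short/medium). Numbers for large `n`. uses: nothing. Proof. `rn n = 2^(n/400) → ∞`; `5/2^n → 0`; last: `rn n ^ 2 = 2^(2 (n/400)) ≥ 16 (7 n + 10)` for `n` large, `rn n ≤ 2^n`. -/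
def NNM_stmt : Prop := ∀ (M : ℕ) (B δ : ℝ), 0 < δ → ∃ n0 : ℕ, ∀ n : ℕ, n0 ≤ n → M ≤ rn n ∧ M * ((5 / 2 ^ n) * B + 1 / (rn n : ℝ)) ≤ δ ∧
  2 * (rn n : ℝ) ^ 4 * 2 ^ (3 * n) ≤ 2 ^ (rn n ^ 2 / 16)

/-- **MNH** (medium/LONG, assembly). The stage theorem. uses: everything (hypotheses of the theorem, in this order: BPE, KRE, BAT, PERT, GALL, ROU, SJM, NUM, NNM, GPH, SPM, BTS, INI, RTB, FLS, IST, END, YIN, FIN).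
Proof. `β` (BPE), `κ` (KRE); `KB, m0, wK` (BAT), `KP, KG`, `K0 = KG (KB + 2 KP + 1)`, `ac, w1, δ', B0` (ROU for `K0, m0`), `δ = min δ' (1/1000)`, `C` = maximum of the constants of BTS, INI, FLS and `1`; `w0 = max wK w1 + 2`; `th, ρ0` (BAT for `w0`), `q0` (ROU for `w0`), `ρ1` (NUM for `C + ac + 1`, `w0`);
`c`, `n1` (YIN), `n2` (FIN for `κ`, `B0`), NNM with `M = max` of everything. For `n ≥ n0`, `G0, Z, p, p'` with `MH n c …`: `N1` from YIN with `N0 = sj s0 2`, `J = max N1 2`, `N = sj s0 J ≥ N1` (SJM), `y = Es N …`, `a = ⟨κ, KB, th, δ, B0, 5/2^n, m0, w0, ac, rn n, y⟩`, SPok. GPc by GPH (`δ ≤ 1/1000`), ROUc by SPM. INI, then IST `J - 1` times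
(`sj (j+1) ≤ sj J` for `j + 1 ≤ J`, RTBc and FLSc for `N = sj J`) give `x` with `INV a (J-1) x`; END. -/
def MNH_stmt : Prop := MAINH_stmt

end Pool.Agent.helper90.DH
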